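import Mathlib

set_option autoImplicit false
set_option linter.unusedSectionVars false
set_option linter.style.haveILetI false

open Topology Pointwise Filter

namespace H16.LN

section NoTop
variable {G : Type*} [Group G]

/-- The elements all of whose conjugates by elements of `K` lie in `V`. -/
def relCore (K : Set G) (V : Subgroup G) : Subgroup G where
  carrier := {v | ∀ k ∈ K, k * v * k⁻¹ ∈ V}
  mul_mem' := by
    intro a b ha hb k hk
    have h1 := V.mul_mem (ha k hk) (hb k hk)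
    have h2 : k * (a * b) * k⁻¹ = k * a * k⁻¹ * (k * b * k⁻¹) := by group
    rw [h2]; exact h1
  one_mem' := by
    intro k _
    have : k * 1 * k⁻¹ = 1 := by group
    rw [this]; exact V.one_mem
  inv_mem' := by
    intro a ha k hk
    have h1 := V.inv_mem (ha k hk)
    have h2 : k * a⁻¹ * k⁻¹ = (k * a * k⁻¹)⁻¹ := by group
    rw [h2]; exact h1

theorem mem_relCore {K : Set G} {V : Subgroup G} {v : G} :
    v ∈ relCore K V ↔ ∀ k ∈ K, k * v * k⁻¹ ∈ V := Iff.rfl

theorem relCore_le {K : Set G} {V : Subgroup G} (h1 : (1 : G) ∈ K) : relCore K V ≤ V := by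
  intro v hv
  simpa using hv 1 h1

theorem relCore_anti {K K' : Set G} {V : Subgroup G} (h : K ⊆ K') :
    relCore K' V ≤ relCore K V := fun _ hv k hk => hv k (h hk)

theorem relCore_conj {K : Subgroup G} {V : Subgroup G} {v k : G} (hk : k ∈ K)
    (hv : v ∈ relCore (K : Set G) V) : k * v * k⁻¹ ∈ relCore (K : Set G) V := by
  intro l hl
  have := hv (l * k) (K.mul_mem hl hk)
  have h2 : l * (k * v * k⁻¹) * l⁻¹ = l * k * v * (l * k)⁻¹ := by group
  rw [h2]; exact this

theorem relCore_conj' {K : Subgroup G} {V : Subgroup G} {v k : G} (hk : k ∈ K)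
    (hv : v ∈ relCore (K : Set G) V) : k⁻¹ * v * k ∈ relCore (K : Set G) V := by
  simpa using relCore_conj (K.inv_mem hk) hv

end NoTop

/-- compact open subgroup -/
def CO {G : Type*} [Group G] [TopologicalSpace G] (K : Subgroup G) : Prop :=
  IsOpen (K : Set G) ∧ IsCompact (K : Set G)

/-- A standing set of hypotheses. -/
structure Setup (G : Type*) [Group G] [TopologicalSpace G] (p : ℕ) : Prop where
  hC : ∀ H : Subgroup G, IsClosed (H : Set G) → H ≠ ⊤ → IsCompact (H : Set G)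
  hnc : ¬ CompactSpace G
  hLE : ∀ Q : Set G, IsCompact Q → ∃ K : Subgroup G, CO K ∧ Q ⊆ K
  hp : p.Prime
  hP : ∀ x : G, ∀ V : Subgroup G, IsOpen (V : Set G) → ∃ k : ℕ, x ^ (p ^ k) ∈ V
  hna : ¬ ∀ a b : G, a * b = b * a

section Top
variable {G : Type*} [Group G] [TopologicalSpace G] [IsTopologicalGroup G]

theorem isOpen_of_nhds {V : Subgroup G} (h : (V : Set G) ∈ 𝓝 (1 : G)) : IsOpen (V : Set G) :=
  Subgroup.isOpen_of_mem_nhds V h

theorem relCore_isOpen {K : Set G} (hK : IsCompact K) {V : Subgroup G}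
    (hV : IsOpen (V : Set G)) : IsOpen (relCore K V : Set G) := by
  apply isOpen_of_nhds
  have : ∀ᶠ x in 𝓝 (1 : G), ∀ y ∈ K, y * x * y⁻¹ ∈ (V : Set G) := by
    apply hK.eventually_forall_of_forall_eventually
    intro y hy
    have hc : Continuous fun z : G × G => z.2 * z.1 * z.2⁻¹ := by fun_prop
    have h1 : (fun z : G × G => z.2 * z.1 * z.2⁻¹) ((1 : G), y) ∈ (V : Set G) := by
      simp [V.one_mem]
    exact hc.continuousAt.preimage_mem_nhds (hV.mem_nhds h1)
  exact this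

theorem CO.closed {K : Subgroup G} (hK : CO K) : IsClosed (K : Set G) :=
  K.isClosed_of_isOpen hK.1

theorem CO.inf {K L : Subgroup G} (hK : CO K) (hL : IsOpen (L : Set G)) : CO (K ⊓ L) := by
  refine ⟨?_, ?_⟩
  · rw [Subgroup.coe_inf]; exact hK.1.inter hL
  · rw [Subgroup.coe_inf]; exact hK.2.inter_right (L.isClosed_of_isOpen hL)

variable {p : ℕ}

theorem Setup.ne_top (S : Setup G p) {K : Subgroup G} (hK : IsCompact (K : Set G)) : K ≠ ⊤ := by
  rintro rfl
  exact S.hnc ⟨by simpa using hK⟩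

theorem Setup.exists_notMem (S : Setup G p) {Q : Set G} (hQ : IsCompact Q) : ∃ x, x ∉ Q := by
  by_contra h
  push Not at h
  exact S.hnc ⟨by rwa [← Set.eq_univ_of_forall h]⟩

theorem Setup.exists_ge (S : Setup G p) {Q Q' : Set G} (hQ : IsCompact Q) (hQ' : IsCompact Q') :
    ∃ K : Subgroup G, CO K ∧ Q ⊆ K ∧ Q' ⊆ K := by
  obtain ⟨K, hK, h⟩ := S.hLE (Q ∪ Q') (hQ.union hQ')
  exact ⟨K, hK, Set.subset_union_left.trans h, Set.subset_union_right.trans h⟩

theorem Setup.exists_gt (S : Setup G p) {K : Subgroup G} (hK : CO K) :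
    ∃ K' : Subgroup G, CO K' ∧ K < K' := by
  obtain ⟨x, hx⟩ := S.exists_notMem hK.2
  obtain ⟨K', hK', h1, h2⟩ := S.exists_ge hK.2 (isCompact_singleton (x := x))
  refine ⟨K', hK', lt_of_le_of_ne h1 ?_⟩
  rintro rfl
  exact hx (h2 rfl)

theorem Setup.unif_exp (S : Setup G p) {Q : Set G} (hQ : IsCompact Q) {V : Subgroup G}
    (hV : IsOpen (V : Set G)) : ∃ e : ℕ, ∀ x ∈ Q, x ^ (p ^ e) ∈ V := by
  have hmono : ∀ x : G, ∀ i j : ℕ, i ≤ j → x ^ (p ^ i) ∈ V → x ^ (p ^ j) ∈ V := by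
    intro x i j hij h
    obtain ⟨d, rfl⟩ := Nat.exists_eq_add_of_le hij
    rw [pow_add, pow_mul]
    exact V.pow_mem h _
  obtain ⟨e, he⟩ := hQ.elim_directed_cover (fun k : ℕ => {x : G | x ^ (p ^ k) ∈ V})
    (fun k => hV.preimage (continuous_pow (p ^ k)))
    (by
      intro x _
      obtain ⟨k, hk⟩ := S.hP x V hV
      exact Set.mem_iUnion.2 ⟨k, hk⟩)
    (by
      intro i j
      refine ⟨max i j, ?_, ?_⟩
      · intro x hx; exact hmono x _ _ (le_max_left _ _) hx
      · intro x hx; exact hmono x _ _ (le_max_right _ _) hx)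
  exact ⟨e, fun x hx => he hx⟩

theorem subgroupOf_isOpen (N : Subgroup G) {V : Subgroup G} (hV : IsOpen (V : Set G)) :
    IsOpen ((V.subgroupOf N : Subgroup N) : Set N) := by
  rw [Subgroup.coe_subgroupOf]
  exact hV.preimage continuous_subtype_val

theorem finite_quot {N : Subgroup G} (hN : IsCompact (N : Set G)) {V : Subgroup G}
    (hV : IsOpen (V : Set G)) : Finite (N ⧸ (V.subgroupOf N)) := by
  haveI : CompactSpace N := isCompact_iff_compactSpace.1 hN
  exact Subgroup.quotient_finite_of_isOpen _ (subgroupOf_isOpen N hV)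

instance relCore_normal (N : Subgroup G) (V : Subgroup G) :
    ((relCore (N : Set G) V).subgroupOf N).Normal := by
  constructor
  intro v hv g
  rw [Subgroup.mem_subgroupOf] at hv ⊢
  exact relCore_conj g.2 hv

theorem Setup.isPGroup_quot (S : Setup G p) {N : Subgroup G} {A : Subgroup N} [A.Normal]
    {V : Subgroup G} (hV : IsOpen (V : Set G)) (hA : V.subgroupOf N ≤ A) :
    IsPGroup p (N ⧸ A) := by
  intro x
  obtain ⟨y, rfl⟩ := QuotientGroup.mk_surjective x
  obtain ⟨k, hk⟩ := S.hP (y : G) V hV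
  refine ⟨k, ?_⟩
  rw [← QuotientGroup.mk_pow, QuotientGroup.eq_one_iff]
  apply hA
  rw [Subgroup.mem_subgroupOf]
  simpa using hk

/-- A far central element. -/
theorem Setup.exists_central (S : Setup G p) {K V : Subgroup G} (hK : CO K) (hV : CO V)
    (hVK : V < K) :
    ∃ z ∈ K, z ∉ V ∧ ∀ k ∈ K, z * k * z⁻¹ * k⁻¹ ∈ relCore (K : Set G) V := by
  haveI : Fact p.Prime := ⟨S.hp⟩
  have hopen := relCore_isOpen hK.2 hV.1
  haveI : Finite (K ⧸ ((relCore (K : Set G) V).subgroupOf K)) := finite_quot hK.2 hopen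
  have hPG : IsPGroup p (K ⧸ ((relCore (K : Set G) V).subgroupOf K)) :=
    S.isPGroup_quot hopen le_rfl
  haveI : Nontrivial (K ⧸ ((relCore (K : Set G) V).subgroupOf K)) := by
    obtain ⟨k, hk, hkV⟩ := Set.exists_of_ssubset (show (V : Set G) ⊂ K from hVK)
    refine ⟨(QuotientGroup.mk (⟨k, hk⟩ : K)), 1, ?_⟩
    intro h
    rw [QuotientGroup.eq_one_iff, Subgroup.mem_subgroupOf] at h
    exact hkV (relCore_le K.one_mem h)
  haveI := hPG.center_nontrivial
  obtain ⟨⟨z, hz⟩, hz1⟩ := exists_ne (1 : Subgroup.center (K ⧸ ((relCore (K : Set G) V).subgroupOf K)))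
  obtain ⟨w, rfl⟩ := QuotientGroup.mk_surjective z
  have hcomm : ∀ k ∈ K, (w : G) * k * (w : G)⁻¹ * k⁻¹ ∈ relCore (K : Set G) V := by
    intro k hk
    have h1 := (Subgroup.mem_center_iff.1 hz) (QuotientGroup.mk (⟨k, hk⟩ : K))
    have h2 : (QuotientGroup.mk (w * ⟨k, hk⟩ * w⁻¹ * (⟨k, hk⟩ : K)⁻¹) :
        K ⧸ ((relCore (K : Set G) V).subgroupOf K)) = 1 := by
      rw [QuotientGroup.mk_mul, QuotientGroup.mk_mul, QuotientGroup.mk_mul, QuotientGroup.mk_inv,
        QuotientGroup.mk_inv, ← h1]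
      group
    rw [QuotientGroup.eq_one_iff, Subgroup.mem_subgroupOf] at h2
    exact h2
  refine ⟨w, w.2, ?_, hcomm⟩
  intro hwV
  apply hz1
  apply Subtype.ext
  change (QuotientGroup.mk w : K ⧸ ((relCore (K : Set G) V).subgroupOf K)) = 1
  rw [QuotientGroup.eq_one_iff, Subgroup.mem_subgroupOf]
  intro k hk
  have h3 : k * (w : G) * k⁻¹ = ((w : G) * k * (w : G)⁻¹ * k⁻¹)⁻¹ * (w : G) := by group
  rw [h3]
  exact V.mul_mem (V.inv_mem (relCore_le K.one_mem (hcomm k hk))) hwV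

end Top

end H16.LN
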