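import Pool.Agent.H16.LN.Power

set_option autoImplicit false
set_option linter.unusedSectionVars false
set_option linter.style.haveILetI false

open Topology Pointwise Filter
open scoped commutatorElement

namespace H16.LN

section NoTop
variable {G : Type*} [Group G]

theorem mem_sup_zpowers {L : Subgroup G} {z : G} (hz : ∀ l ∈ L, z * l * z⁻¹ ∈ L)
    (hz' : ∀ l ∈ L, z⁻¹ * l * z ∈ L) {x : G} (hx : x ∈ L ⊔ Subgroup.zpowers z) :
    ∃ l ∈ L, ∃ i : ℤ, x = l * z ^ i := by
  have hzn : ∀ i : ℤ, ∀ l ∈ L, z ^ i * l * (z ^ i)⁻¹ ∈ L := by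
    have hnat : ∀ n : ℕ, ∀ l ∈ L, z ^ n * l * (z ^ n)⁻¹ ∈ L := by
      intro n
      induction n with
      | zero => intro l hl; simpa using hl
      | succ n ih =>
        intro l hl
        have h1 := hz _ (ih l hl)
        have h2 : z ^ (n + 1) * l * (z ^ (n + 1))⁻¹ = z * (z ^ n * l * (z ^ n)⁻¹) * z⁻¹ := by
          rw [pow_succ']; group
        rw [h2]; exact h1
    have hnat' : ∀ n : ℕ, ∀ l ∈ L, (z ^ n)⁻¹ * l * z ^ n ∈ L := by
      intro n
      induction n with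
      | zero => intro l hl; simpa using hl
      | succ n ih =>
        intro l hl
        have h1 := hz' _ (ih l hl)
        have h2 : (z ^ (n + 1))⁻¹ * l * z ^ (n + 1) = z⁻¹ * ((z ^ n)⁻¹ * l * z ^ n) * z := by
          rw [pow_succ]; group
        rw [h2]; exact h1
    intro i l hl
    obtain ⟨n, rfl | rfl⟩ := i.eq_nat_or_neg
    · simpa using hnat n l hl
    · simpa using hnat' n l hl
  let T : Subgroup G :=
    { carrier := {x | ∃ l ∈ L, ∃ i : ℤ, x = l * z ^ i}
      mul_mem' := by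
        rintro _ _ ⟨l, hl, i, rfl⟩ ⟨l', hl', j, rfl⟩
        refine ⟨l * (z ^ i * l' * (z ^ i)⁻¹), L.mul_mem hl (hzn i l' hl'), i + j, ?_⟩
        rw [zpow_add]; group
      one_mem' := ⟨1, L.one_mem, 0, by simp⟩
      inv_mem' := by
        rintro _ ⟨l, hl, i, rfl⟩
        refine ⟨z ^ (-i) * l⁻¹ * (z ^ (-i))⁻¹, hzn (-i) _ (L.inv_mem hl), -i, ?_⟩
        group }
  have h1 : L ⊔ Subgroup.zpowers z ≤ T := by
    refine sup_le (fun l hl => ⟨l, hl, 0, by simp⟩) ?_
    rintro _ ⟨i, rfl⟩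
    exact ⟨1, L.one_mem, i, by simp⟩
  exact h1 hx

/-- elements of `K` central modulo `relCore K V`. -/
def zen (K V : Subgroup G) : Subgroup G where
  carrier := {z | z ∈ K ∧ ∀ k ∈ K, z * k * z⁻¹ * k⁻¹ ∈ relCore (K : Set G) V}
  mul_mem' := by
    rintro a b ⟨ha, ha'⟩ ⟨hb, hb'⟩
    refine ⟨K.mul_mem ha hb, fun k hk => ?_⟩
    have h1 : a * b * k * (a * b)⁻¹ * k⁻¹ =
        a * (b * k * b⁻¹ * k⁻¹) * a⁻¹ * (a * k * a⁻¹ * k⁻¹) := by group
    rw [h1]
    exact mul_mem (relCore_conj ha (hb' k hk)) (ha' k hk)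
  one_mem' := by
    refine ⟨K.one_mem, fun k _ => ?_⟩
    have : 1 * k * 1⁻¹ * k⁻¹ = 1 := by group
    rw [this]; exact one_mem _
  inv_mem' := by
    rintro a ⟨ha, ha'⟩
    refine ⟨K.inv_mem ha, fun k hk => ?_⟩
    have h1 : a⁻¹ * k * a⁻¹⁻¹ * k⁻¹ = a⁻¹ * (a * k * a⁻¹ * k⁻¹)⁻¹ * a := by group
    rw [h1]
    exact relCore_conj' ha (inv_mem (ha' k hk))

theorem zen_anti {K K' V : Subgroup G} (h : K ≤ K') {z : G} (hz : z ∈ zen K' V) (hzK : z ∈ K) :
    z ∈ zen K V :=
  ⟨hzK, fun k hk => relCore_anti (show (K : Set G) ⊆ K' from h) (hz.2 k (h hk))⟩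

end NoTop

variable {G : Type*} [Group G] [TopologicalSpace G] [IsTopologicalGroup G] [T2Space G] {p : ℕ}

theorem Setup.exists_core (S : Setup G p) {V : Subgroup G} (hV : CO V) :
    ∃ z, z ∉ V ∧ ∀ g, z * g * z⁻¹ * g⁻¹ ∈ V.normalCore := by
  by_cases h : ∃ K1 : Subgroup G, CO K1 ∧ ∀ K : Subgroup G, CO K → K1 ≤ K →
      ∃ z, z ∈ zen K V ∧ z ∈ K1 ∧ z ∉ V
  · obtain ⟨K1, hK1, h⟩ := h
    let C : {K : Subgroup G // CO K ∧ K1 ≤ K} → Set G := fun K =>
      ((zen K.1 V : Subgroup G) : Set G) ∩ ((K1 : Set G) ∩ (V : Set G)ᶜ)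
    have hclosed : ∀ K, IsClosed (C K) := by
      intro K
      apply IsClosed.inter _ (hK1.closed.inter hV.1.isClosed_compl)
      have : ((zen K.1 V : Subgroup G) : Set G) = (K.1 : Set G) ∩ ⋂ k : K.1,
          (fun z : G => z * k * z⁻¹ * (k : G)⁻¹) ⁻¹' (relCore (K.1 : Set G) V : Set G) := by
        ext z
        simp only [Set.mem_inter_iff, Set.mem_iInter, Set.mem_preimage, SetLike.mem_coe]
        constructor
        · rintro ⟨h1, h2⟩; exact ⟨h1, fun k => h2 k k.2⟩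
        · rintro ⟨h1, h2⟩; exact ⟨h1, fun k hk => h2 ⟨k, hk⟩⟩
      rw [this]
      refine K.2.1.closed.inter (isClosed_iInter fun k => ?_)
      apply IsClosed.preimage (by fun_prop)
      exact (relCore _ V).isClosed_of_isOpen (relCore_isOpen K.2.1.2 hV.1)
    have hne : (⋂ K, C K).Nonempty := by
      haveI : Nonempty {K : Subgroup G // CO K ∧ K1 ≤ K} := ⟨⟨K1, hK1, le_rfl⟩⟩
      apply IsCompact.nonempty_iInter_of_directed_nonempty_isCompact_isClosed C
      · intro K K'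
        obtain ⟨K2, hK2, h1, h2⟩ := S.exists_ge K.2.1.2 K'.2.1.2
        refine ⟨⟨K2, hK2, K.2.2.trans h1⟩, ?_, ?_⟩
        · rintro z ⟨hz1, hz2⟩
          exact ⟨zen_anti h1 hz1 (K.2.2 hz2.1), hz2⟩
        · rintro z ⟨hz1, hz2⟩
          exact ⟨zen_anti h2 hz1 (K'.2.2 hz2.1), hz2⟩
      · intro K
        obtain ⟨z, h1, h2, h3⟩ := h K.1 K.2.1 K.2.2
        exact ⟨z, h1, h2, h3⟩
      · intro K
        exact hK1.2.of_isClosed_subset (hclosed K) (fun z hz => hz.2.1)
      · exact hclosed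
    obtain ⟨z, hz⟩ := hne
    rw [Set.mem_iInter] at hz
    refine ⟨z, (hz ⟨K1, hK1, le_rfl⟩).2.2, fun g x => ?_⟩
    obtain ⟨K, hK, h1, h2⟩ := S.exists_ge hK1.2 (Set.Finite.isCompact (Set.toFinite {g, x}))
    have h3 := (hz ⟨K, hK, h1⟩).1.2 g (h2 (by simp)) x (h2 (by simp))
    exact h3
  · exfalso
    push Not at h
    -- the step
    let St := {P : Subgroup G × Subgroup G // CO P.1 ∧ V ≤ P.2 ∧ P.2 ≤ P.1 ∧ V < P.1}
    have step : ∀ P : St, ∃ P' : St, P.1.1 ≤ P'.1.1 ∧ P.1.2 ≤ P'.1.2 ∧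
        P'.1.2 ⊓ P.1.1 ≤ P.1.2 ∧ ¬ P'.1.2 ≤ P.1.1 := by
      rintro ⟨⟨K, L⟩, hK, hVL, hLK, hVK⟩
      obtain ⟨K', hK', hKK', hz'⟩ := h K hK
      have hVK' : V < K' := hVK.trans_le hKK'
      obtain ⟨z, hzK', hzV, hzc⟩ := S.exists_central hK' hV hVK'
      have hzz : z ∈ zen K' V := ⟨hzK', hzc⟩
      have hzK : z ∉ K := fun hzK => hzV (hz' z hzz hzK)
      have hconj : ∀ l ∈ L, z * l * z⁻¹ ∈ L := by
        intro l hl
        have h1 := hVL (relCore_le K'.one_mem (hzc l (hKK' (hLK hl))))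
        have h2 : z * l * z⁻¹ = z * l * z⁻¹ * l⁻¹ * l := by group
        rw [h2]; exact L.mul_mem h1 hl
      have hconj' : ∀ l ∈ L, z⁻¹ * l * z ∈ L := by
        intro l hl
        have h1 := hVL (relCore_le K'.one_mem ((inv_mem hzz).2 l (hKK' (hLK hl))))
        have h2 : z⁻¹ * l * z = z⁻¹ * l * z⁻¹⁻¹ * l⁻¹ * l := by group
        rw [h2]; exact L.mul_mem h1 hl
      refine ⟨⟨⟨K', L ⊔ Subgroup.zpowers z⟩, hK', hVL.trans le_sup_left,
        sup_le (hLK.trans hKK') (by rwa [Subgroup.zpowers_le]), hVK'⟩, hKK', le_sup_left, ?_, ?_⟩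
      · rintro x ⟨hx1, hx2⟩
        obtain ⟨l, hl, i, rfl⟩ := mem_sup_zpowers hconj hconj' hx1
        have h1 : z ^ i ∈ K := by
          have := K.mul_mem (K.inv_mem (hLK hl)) hx2
          simpa using this
        exact L.mul_mem hl (hVL (hz' _ (zpow_mem hzz i) h1))
      · intro hle
        exact hzK (hle ((le_sup_right : _ ≤ L ⊔ Subgroup.zpowers z) (Subgroup.mem_zpowers z)))
    choose f hf1 hf2 hf3 hf4 using step
    obtain ⟨K0, hK0, hVK0⟩ := S.exists_gt hV
    let P0 : St := ⟨⟨K0, V⟩, hK0, le_rfl, hVK0.le, hVK0⟩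
    let P : ℕ → St := fun n => f^[n] P0
    have hP : ∀ n, P (n + 1) = f (P n) := fun n => Function.iterate_succ_apply' f n P0
    have hKmono : ∀ n, K0 ≤ (P n).1.1 := by
      intro n
      induction n with
      | zero => exact le_rfl
      | succ n ih => rw [hP]; exact ih.trans (hf1 _)
    have hLmono : Monotone fun n => (P n).1.2 := by
      apply monotone_nat_of_le_succ
      intro n
      rw [hP]; exact hf2 _
    have hinter : ∀ n, (P n).1.2 ⊓ K0 ≤ V := by
      intro n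
      induction n with
      | zero => exact inf_le_left
      | succ n ih =>
        rintro x ⟨hx1, hx2⟩
        rw [hP] at hx1
        exact ih ⟨hf3 _ ⟨hx1, hKmono n hx2⟩, hx2⟩
    have hdir : Directed (· ≤ ·) fun n => (P n).1.2 := hLmono.directed_le
    let Y : Subgroup G := ⨆ n, (P n).1.2
    have hVY : V ≤ Y := (P 0).2.2.1.trans (le_iSup (fun n => (P n).1.2) 0)
    have hYopen : IsOpen (Y : Set G) := Subgroup.isOpen_mono hVY hV.1
    have hYne : Y ≠ ⊤ := by
      intro hY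
      obtain ⟨x, hx1, hx2⟩ := Set.exists_of_ssubset (show (V : Set G) ⊂ K0 from hVK0)
      have hx : x ∈ Y := by rw [hY]; trivial
      obtain ⟨n, hn⟩ := (Subgroup.mem_iSup_of_directed hdir).1 hx
      exact hx2 (hinter n ⟨hn, hx1⟩)
    have hYc := S.hC Y (Y.isClosed_of_isOpen hYopen) hYne
    obtain ⟨n, hn⟩ := hYc.elim_directed_cover (fun n => ((P n).1.2 : Set G))
      (fun n => Subgroup.isOpen_mono (P n).2.2.1 hV.1)
      (by
        intro x hx
        obtain ⟨n, hn⟩ := (Subgroup.mem_iSup_of_directed hdir).1 hx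
        exact Set.mem_iUnion.2 ⟨n, hn⟩)
      (by
        intro i j
        exact ⟨max i j, hLmono (le_max_left _ _), hLmono (le_max_right _ _)⟩)
    apply hf4 (P n)
    rw [← hP]
    intro x hx
    exact (P n).2.2.2.1 (hn ((le_iSup (fun n => (P n).1.2) (n + 1)) hx))

/-- compact normal subgroups `N` with `closure [N,G] = N`. -/
structure Nice (N : Subgroup G) : Prop where
  normal : N.Normal
  compact : IsCompact (N : Set G)
  perf : ∀ M : Subgroup G, IsClosed (M : Set G) →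
    (∀ n ∈ N, ∀ g : G, n * g * n⁻¹ * g⁻¹ ∈ M) → N ≤ M

theorem Nice.bot : Nice (⊥ : Subgroup G) where
  normal := inferInstance
  compact := by simp
  perf := fun _ _ _ => bot_le

theorem Nice.sup {N1 N2 : Subgroup G} (h1 : Nice N1) (h2 : Nice N2) : Nice (N1 ⊔ N2) where
  normal := by haveI := h1.normal; haveI := h2.normal; infer_instance
  compact := by
    haveI := h2.normal
    rw [Subgroup.mul_normal]
    exact h1.compact.mul h2.compact
  perf := fun M hM h => sup_le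
    (h1.perf M hM fun n hn g => h n ((le_sup_left : N1 ≤ N1 ⊔ N2) hn) g)
    (h2.perf M hM fun n hn g => h n ((le_sup_right : N2 ≤ N1 ⊔ N2) hn) g)

theorem Setup.nice_of_core (S : Setup G p) {V : Subgroup G} (hV : CO V) {z : G}
    (hz : ∀ g, z * g * z⁻¹ * g⁻¹ ∈ V.normalCore) :
    ∃ N : Subgroup G, Nice N ∧ ∀ g, z * g * z⁻¹ * g⁻¹ ∈ N := by
  let M : Subgroup G :=
    (Subgroup.normalClosure {x | ∃ g, z * g * z⁻¹ * g⁻¹ = x}).topologicalClosure
  have hMz : ∀ g, z * g * z⁻¹ * g⁻¹ ∈ M := fun g =>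
    Subgroup.le_topologicalClosure _ (Subgroup.subset_normalClosure ⟨g, rfl⟩)
  haveI hMn : M.Normal := Subgroup.is_normal_topologicalClosure _
  refine ⟨M, ⟨hMn, ?_, ?_⟩, hMz⟩
  · apply hV.2.of_isClosed_subset (Subgroup.isClosed_topologicalClosure _)
    have h1 : M ≤ V := by
      apply Subgroup.topologicalClosure_minimal _ _ hV.closed
      refine (Subgroup.normalClosure_le_normal ?_).trans (Subgroup.normalCore_le V)
      rintro _ ⟨g, rfl⟩
      exact hz g
    exact h1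
  · intro M' hM' h
    haveI : (⁅M, (⊤ : Subgroup G)⁆).Normal := inferInstance
    let M2 : Subgroup G := (⁅M, (⊤ : Subgroup G)⁆).topologicalClosure
    haveI hM2n : M2.Normal := Subgroup.is_normal_topologicalClosure _
    have hM2c : IsClosed (M2 : Set G) := Subgroup.isClosed_topologicalClosure _
    have hM2M' : M2 ≤ M' := by
      apply Subgroup.topologicalClosure_minimal _ _ hM'
      rw [Subgroup.commutator_le]
      intro m hm g _
      exact h m hm g
    have hcM : ∀ m ∈ M, ∀ g : G, (m : G ⧸ M2) * (g : G ⧸ M2) = (g : G ⧸ M2) * (m : G ⧸ M2) := by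
      intro m hm g
      rw [← QuotientGroup.mk_mul, ← QuotientGroup.mk_mul, QuotientGroup.eq]
      have h1 : ⁅m⁻¹, g⁻¹⁆ ∈ M2 := Subgroup.le_topologicalClosure _
        (Subgroup.commutator_mem_commutator (inv_mem hm) (Subgroup.mem_top _))
      have h2 : (m * g)⁻¹ * (g * m) = g⁻¹ * (m⁻¹ * g * m * g⁻¹) * g := by group
      have h3 : (m * g)⁻¹ * (g * m) = ⁅m⁻¹, g⁻¹⁆⁻¹ := by
        rw [commutatorElement_def]; group
      rw [h3]
      exact inv_mem h1
    let φ : G →* G ⧸ M2 := MonoidHom.mk' (fun g => ((z * g * z⁻¹ * g⁻¹ : G) : G ⧸ M2)) (by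
      intro a b
      have h1 : z * (a * b) * z⁻¹ * (a * b)⁻¹ =
          (z * a * z⁻¹ * a⁻¹) * (a * (z * b * z⁻¹ * b⁻¹) * a⁻¹) := by group
      rw [h1, QuotientGroup.mk_mul, QuotientGroup.mk_mul _ (a * _), QuotientGroup.mk_mul _ a,
        ← hcM _ (hMz b) a, QuotientGroup.mk_inv]
      group)
    have hφ : commutator G ≤ φ.ker := by
      rw [commutator_def, Subgroup.commutator_le]
      intro a _ b _
      rw [MonoidHom.mem_ker, map_commutatorElement, commutatorElement_def]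
      have : φ a * φ b = φ b * φ a := hcM _ (hMz a) _
      rw [this]; group
    have hker : IsClosed (φ.ker : Set G) := by
      have : (φ.ker : Set G) = (fun g => z * g * z⁻¹ * g⁻¹) ⁻¹' (M2 : Set G) := by
        ext g
        simp only [SetLike.mem_coe, MonoidHom.mem_ker, Set.mem_preimage]
        exact QuotientGroup.eq_one_iff _
      rw [this]
      exact hM2c.preimage (by fun_prop)
    have htop : (⊤ : Subgroup G) ≤ φ.ker := by
      rw [← S.perfect]
      exact Subgroup.topologicalClosure_minimal _ hφ hker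
    refine le_trans ?_ hM2M'
    apply Subgroup.topologicalClosure_minimal _ _ hM2c
    apply Subgroup.normalClosure_le_normal
    rintro _ ⟨g, rfl⟩
    have := htop (Subgroup.mem_top g)
    rw [MonoidHom.mem_ker] at this
    exact (QuotientGroup.eq_one_iff _).1 this

theorem nice_directed : Directed (· ≤ ·) fun N : {N : Subgroup G // Nice N} => N.1 := by
  intro N1 N2
  exact ⟨⟨N1.1 ⊔ N2.1, N1.2.sup N2.2⟩, le_sup_left, le_sup_right⟩

theorem Setup.dense (S : Setup G p) :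
    (⨆ N : {N : Subgroup G // Nice N}, N.1).topologicalClosure = ⊤ := by
  by_contra hne
  haveI : Nonempty {N : Subgroup G // Nice N} := ⟨⟨⊥, Nice.bot⟩⟩
  have hRn : (⨆ N : {N : Subgroup G // Nice N}, N.1).Normal := by
    constructor
    intro n hn g
    obtain ⟨N, hN⟩ := (Subgroup.mem_iSup_of_directed nice_directed).1 hn
    exact (Subgroup.mem_iSup_of_directed nice_directed).2 ⟨N, N.2.normal.conj_mem n hN g⟩
  set D : Subgroup G := (⨆ N : {N : Subgroup G // Nice N}, N.1).topologicalClosure with hD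
  haveI hDn : D.Normal := Subgroup.is_normal_topologicalClosure _
  have hDc : IsClosed (D : Set G) := Subgroup.isClosed_topologicalClosure _
  let ZD : Subgroup G :=
    { carrier := {z | ∀ x, z * x * z⁻¹ * x⁻¹ ∈ D}
      mul_mem' := by
        intro a b ha hb x
        have h1 : a * b * x * (a * b)⁻¹ * x⁻¹ =
          a * (b * x * b⁻¹ * x⁻¹) * a⁻¹ * (a * x * a⁻¹ * x⁻¹) := by group
        rw [h1]
        exact mul_mem (hDn.conj_mem _ (hb x) a) (ha x)
      one_mem' := by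
        intro x
        have : 1 * x * 1⁻¹ * x⁻¹ = 1 := by group
        rw [this]; exact one_mem _
      inv_mem' := by
        intro a ha x
        have h1 : a⁻¹ * x * a⁻¹⁻¹ * x⁻¹ = a⁻¹ * (a * x * a⁻¹ * x⁻¹)⁻¹ * a⁻¹⁻¹ := by group
        rw [h1]
        exact hDn.conj_mem _ (inv_mem (ha x)) a⁻¹ }
  have hZc : IsClosed (ZD : Set G) := by
    have : (ZD : Set G) = ⋂ x : G, (fun z : G => z * x * z⁻¹ * x⁻¹) ⁻¹' (D : Set G) := by
      ext z
      simp only [Set.mem_iInter, Set.mem_preimage, SetLike.mem_coe]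
      rfl
    rw [this]
    exact isClosed_iInter fun x => hDc.preimage (by fun_prop)
  have hZne : ZD ≠ ⊤ := by
    intro hZ
    apply hne
    rw [← top_le_iff, ← S.perfect]
    apply Subgroup.topologicalClosure_minimal _ _ hDc
    rw [commutator_def, Subgroup.commutator_le]
    intro a _ b _
    have : a ∈ ZD := by rw [hZ]; trivial
    exact this b
  obtain ⟨V, hV, hZV⟩ := S.hLE _ (S.hC _ hZc hZne)
  obtain ⟨z, hzV, hz⟩ := S.exists_core hV
  obtain ⟨N, hN, hzN⟩ := S.nice_of_core hV hz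
  apply hzV
  apply hZV
  intro x
  apply Subgroup.le_topologicalClosure
  exact (Subgroup.mem_iSup_of_directed nice_directed).2 ⟨⟨N, hN⟩, hzN x⟩

theorem Setup.exists_nice_cover (S : Setup G p) {Q : Set G} (hQ : IsCompact Q) {W : Subgroup G}
    (hW : IsOpen (W : Set G)) : ∃ N : Subgroup G, Nice N ∧ ∀ x ∈ Q, ∃ n ∈ N, n⁻¹ * x ∈ W := by
  haveI : Nonempty {N : Subgroup G // Nice N} := ⟨⟨⊥, Nice.bot⟩⟩
  obtain ⟨N, hN⟩ := hQ.elim_directed_cover
    (fun N : {N : Subgroup G // Nice N} => {x | ∃ n ∈ N.1, n⁻¹ * x ∈ W})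
    (by
      intro N
      have : {x | ∃ n ∈ N.1, n⁻¹ * x ∈ W} = ⋃ n ∈ N.1, (fun x => n⁻¹ * x) ⁻¹' (W : Set G) := by
        ext x; simp
      rw [this]
      exact isOpen_biUnion fun n _ => hW.preimage (by fun_prop))
    (by
      intro x _
      have hx : x ∈ closure ((⨆ N : {N : Subgroup G // Nice N}, N.1 : Subgroup G) : Set G) := by
        rw [← Subgroup.topologicalClosure_coe, S.dense]; trivial
      have hopen : IsOpen ((fun y => y⁻¹ * x) ⁻¹' (W : Set G)) := hW.preimage (by fun_prop)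
      obtain ⟨y, hy1, hy2⟩ := mem_closure_iff.1 hx _ hopen (by simp [W.one_mem])
      obtain ⟨N, hN⟩ := (Subgroup.mem_iSup_of_directed nice_directed).1 hy2
      exact Set.mem_iUnion.2 ⟨N, y, hN, hy1⟩)
    (by
      intro N1 N2
      obtain ⟨N3, h1, h2⟩ := nice_directed N1 N2
      refine ⟨N3, ?_, ?_⟩
      · rintro x ⟨n, hn, hx⟩; exact ⟨n, h1 hn, hx⟩
      · rintro x ⟨n, hn, hx⟩; exact ⟨n, h2 hn, hx⟩)
  exact ⟨N.1, N.2, fun x hx => hN hx⟩

theorem Setup.exists_nice_not_le (S : Setup G p) {K : Subgroup G} (hK : CO K) :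
    ∃ N : Subgroup G, Nice N ∧ ¬ N ≤ K := by
  by_contra h
  push Not at h
  apply S.ne_top hK.2
  rw [← top_le_iff, ← S.dense]
  exact Subgroup.topologicalClosure_minimal _ (iSup_le fun N => h N.1 N.2) hK.closed

end H16.LN
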