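import Pool.Agent.H16.LN.Mixing

set_option autoImplicit false
set_option linter.unusedSectionVars false
set_option linter.style.haveILetI false

open Topology Pointwise Filter
open scoped commutatorElement

namespace H16.LN

variable {G : Type*} [Group G] [TopologicalSpace G] [IsTopologicalGroup G] [T2Space G] {p : ℕ}

theorem char_pi {ι Q A : Type*} [Fintype ι] [DecidableEq ι] [Group Q] [CommGroup A]
    (χ : (ι → Q) →* A) (x : ι → Q) : χ x = ∏ i, χ (Pi.mulSingle i (x i)) := by
  let ξ : (ι → Q) →* A := ∏ i, (χ.comp (MonoidHom.mulSingle (fun _ : ι => Q) i)).comp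
    (Pi.evalMonoidHom (fun _ : ι => Q) i)
  have hξ : ∀ x, ξ x = ∏ i, χ (Pi.mulSingle i (x i)) := by
    intro x
    simp only [ξ]
    rw [MonoidHom.finsetProd_apply]
    rfl
  rw [← hξ]
  have : x ∈ MonoidHom.eqLocus χ ξ := by
    apply Subgroup.pi_mem_of_mulSingle_mem
    intro i
    change χ (Pi.mulSingle i (x i)) = ξ (Pi.mulSingle i (x i))
    rw [hξ, Finset.prod_eq_single i]
    · rw [Pi.mulSingle_eq_same]
    · intro j _ hj
      rw [Pi.mulSingle_eq_of_ne hj, Pi.mulSingle_one, map_one]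
    · intro h; exact absurd (Finset.mem_univ i) h
  exact this

theorem Setup.ind_of_rel (S : Setup G p) {N : Subgroup G} [N.Normal] (hN : Nice N) {t : ℕ}
    (h : Rel p t N) : Ind t N := by
  classical
  haveI : Fact p.Prime := ⟨S.hp⟩
  haveI : NeZero p := ⟨S.hp.ne_zero⟩
  intro A hA
  set A1 := relCore (N : Set G) A with hA1
  have hA1o : IsOpen (A1 : Set G) := relCore_isOpen hN.compact hA
  let B : Subgroup N := A1.subgroupOf N
  haveI hBn : B.Normal := relCore_normal N A
  haveI : Finite (N ⧸ B) := finite_quot hN.compact hA1o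
  have hPG : IsPGroup p (N ⧸ B) := S.isPGroup_quot hA1o le_rfl
  let F : Set (N →* Multiplicative (ZMod p)) :=
    Set.range fun χ : (N ⧸ B) →* Multiplicative (ZMod p) => χ.comp (QuotientGroup.mk' B)
  haveI : Finite ((N ⧸ B) →* Multiplicative (ZMod p)) :=
    Finite.of_injective (fun f => (f : (N ⧸ B) → Multiplicative (ZMod p))) DFunLike.coe_injective
  obtain ⟨K, hK, hKT⟩ := h F (Set.finite_range _) (by
    rintro _ ⟨χ, rfl⟩
    refine ⟨A1, hA1o, fun n hn => ?_⟩
    change χ (QuotientGroup.mk' B n) = 1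
    have : QuotientGroup.mk' B n = 1 := (QuotientGroup.eq_one_iff n).2 hn
    rw [this, map_one])
  refine ⟨K, hK, fun T hTc hfar g0 hg0 c hc => ?_⟩
  let Φ : N →* (T → N ⧸ B) := MonoidHom.pi fun g =>
    (QuotientGroup.mk' B).comp (MulAut.conjNormal (g : G))⁻¹.toMonoidHom
  have hΦ : Φ.range = ⊤ := by
    by_contra hne
    have hPi : IsPGroup p (T → N ⧸ B) := by
      intro x
      have hb : ∀ g : T, ∃ k : ℕ, x g ^ p ^ k = 1 := fun g => hPG (x g)
      choose k hk using hb
      refine ⟨∑ g, k g, ?_⟩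
      funext g
      rw [Pi.pow_apply, Pi.one_apply, ← Finset.add_sum_erase _ _ (Finset.mem_univ g), pow_add,
        pow_mul, hk, one_pow]
    obtain ⟨χ, hχ1, hχ⟩ := exists_char hPi hne
    let ψ : G → (N →* Multiplicative (ZMod p)) := fun g =>
      if hg : g ∈ T then
        (χ.comp (MonoidHom.mulSingle (fun _ : T => N ⧸ B) ⟨g, hg⟩)).comp (QuotientGroup.mk' B)
      else 1
    have hψF : ∀ g ∈ T, ψ g ∈ F := by
      intro g hg
      refine ⟨χ.comp (MonoidHom.mulSingle (fun _ : T => N ⧸ B) ⟨g, hg⟩), ?_⟩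
      simp only [ψ, dif_pos hg]
    have hprod : ∏ g ∈ T, act p N g (ψ g) = 1 := by
      ext n
      congr 1
      rw [MonoidHom.finsetProd_apply, MonoidHom.one_apply]
      have h1 : ∀ g : T, act p N (g : G) (ψ g) n = χ (Pi.mulSingle g (Φ n g)) := by
        intro g
        rw [act_apply]
        simp only [ψ, dif_pos g.2]
        rfl
      rw [← Finset.prod_coe_sort T (fun g => act p N g (ψ g) n)]
      rw [Finset.prod_congr rfl (fun g _ => h1 g), ← char_pi]
      exact hχ _ ⟨n, rfl⟩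
    have hall := hKT T hTc hfar ψ hψF hprod
    apply hχ1
    ext x
    congr 1
    rw [MonoidHom.one_apply, char_pi]
    apply Finset.prod_eq_one
    intro g _
    obtain ⟨y, hy⟩ := QuotientGroup.mk'_surjective B (x g)
    have h2 := DFunLike.congr_fun (hall g g.2) y
    simp only [ψ, dif_pos g.2] at h2
    rw [← hy]
    exact h2
  have hy : (fun g : T => if (g : G) = g0 then (QuotientGroup.mk' B ⟨c, hc⟩) else 1) ∈ Φ.range := by
    rw [hΦ]; trivial
  obtain ⟨n, hn⟩ := hy
  refine ⟨n, n.2, ?_, ?_⟩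
  · have h1 := congrFun hn ⟨g0, hg0⟩
    simp only [if_true] at h1
    have h2 : QuotientGroup.mk' B ((MulAut.conjNormal g0)⁻¹ n) = QuotientGroup.mk' B ⟨c, hc⟩ := h1
    have h3 := (QuotientGroup.eq.1 (show (((⟨c, hc⟩ : N)) : N ⧸ B) =
      (((MulAut.conjNormal g0)⁻¹ n : N) : N ⧸ B) from h2.symm))
    have h4 : (((⟨c, hc⟩ : N)⁻¹ * (MulAut.conjNormal g0)⁻¹ n : N) : G) ∈ A1 := h3
    rw [Subgroup.coe_mul, MulAut.conjNormal_inv_apply] at h4
    exact relCore_le N.one_mem h4
  · intro g hg hne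
    have h1 := congrFun hn ⟨g, hg⟩
    simp only [if_neg hne] at h1
    have h2 : QuotientGroup.mk' B ((MulAut.conjNormal g)⁻¹ n) = 1 := h1
    have h3 := (QuotientGroup.eq_one_iff _).1 h2
    have h4 : (((MulAut.conjNormal g)⁻¹ n : N) : G) ∈ A1 := h3
    rw [MulAut.conjNormal_inv_apply] at h4
    exact relCore_le N.one_mem h4

theorem finite_orbit {N M : Subgroup G} [N.Normal] (hN : IsCompact (N : Set G))
    (hM : IsCompact (M : Set G)) {f : N →* Multiplicative (ZMod p)} (hf : Cts f) :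
    {f' | ∃ m ∈ M, act p N m f = f'}.Finite := by
  haveI : Finite (M ⧸ ((stab f).subgroupOf M)) := finite_quot hM (hf.stab_isOpen hN)
  let φ : M ⧸ ((stab f).subgroupOf M) → (N →* Multiplicative (ZMod p)) :=
    Quotient.lift (fun m : M => act p N (m : G) f) (by
      intro a b hab
      have h1 : a⁻¹ * b ∈ (stab f).subgroupOf M := QuotientGroup.leftRel_apply.1 hab
      rw [Subgroup.mem_subgroupOf, mem_stab] at h1
      push_cast at h1
      rw [act_mul] at h1
      have h2 := congrArg (act p N (a : G)) h1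
      rw [← act_mul, mul_inv_cancel, act_one] at h2
      exact h2.symm)
  apply (Set.finite_range φ).subset
  rintro _ ⟨m, hm, rfl⟩
  exact ⟨Quotient.mk _ ⟨m, hm⟩, rfl⟩

theorem Setup.rel_step (S : Setup G p) {t : ℕ}
    (ih : ∀ N : Subgroup G, ∀ [N.Normal], Nice N → Rel p t N) (N : Subgroup G) [N.Normal]
    (hN : Nice N) : Rel p (t + 1) N := by
  classical
  intro F hF hFc
  set F1 : Set (N →* Multiplicative (ZMod p)) := F \ {1} with hF1
  have hF1f : F1.Finite := hF.subset Set.sdiff_subset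
  have hF1c : ∀ f ∈ F1, Cts f := fun f hf => hFc f hf.1
  have hF1n : ∀ f ∈ F1, f ≠ 1 := fun f hf => hf.2
  obtain ⟨K1, hK1, h1⟩ := ih N hN F hF hFc
  -- two-term relations
  obtain ⟨K2, hK2, h2⟩ := S.exists_far_act hN hF1f (F' := (fun f => f⁻¹) '' F) (hF.image _)
    hF1c hF1n
  -- a Nice subgroup moving everything in F1
  obtain ⟨Ks, hKs, hKs'⟩ := S.hLE (⋃ f ∈ F1, (stab f : Set G))
    (hF1f.isCompact_biUnion fun f hf => S.stab_compact hN (hF1c f hf) (hF1n f hf))
  obtain ⟨M, hM, hMK⟩ := S.exists_nice_not_le hKs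
  haveI := hM.normal
  have hmove : ∀ f ∈ F1, ∃ a ∈ M, act p N a f ≠ f := by
    intro f hf
    by_contra hcon
    push Not at hcon
    apply hMK
    intro a ha
    apply hKs'
    simp only [Set.mem_iUnion]
    exact ⟨f, hf, hcon a ha⟩
  -- independence for M
  have hAopen : IsOpen ((⨅ f ∈ F, stab f : Subgroup G) : Set G) := by
    have : ((⨅ f ∈ F, stab f : Subgroup G) : Set G) = ⋂ f ∈ F, (stab f : Set G) := by
      simp [Subgroup.coe_iInf]
    rw [this]
    exact hF.isOpen_biInter fun f hf => (hFc f hf).stab_isOpen hN.compact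
  obtain ⟨K3, hK3, h3⟩ := (S.ind_of_rel hM (ih M hM)) _ hAopen
  -- differences
  let Δ : Set (N →* Multiplicative (ZMod p)) :=
    ⋃ f ∈ F, (fun f' => f' * f⁻¹) '' {f' | ∃ m ∈ M, act p N m f = f'}
  have hΔf : Δ.Finite := hF.biUnion fun f hf =>
    (finite_orbit hN.compact hM.compact (hFc f hf)).image _
  have hΔc : ∀ f ∈ Δ, Cts f := by
    intro η hη
    simp only [Δ, Set.mem_iUnion] at hη
    obtain ⟨f, hf, f', ⟨m, hm, rfl⟩, rfl⟩ := hη
    obtain ⟨V, hV, hfV⟩ := hFc f hf
    refine ⟨V ⊓ relCore {m⁻¹} V, ?_, ?_⟩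
    · rw [Subgroup.coe_inf]
      exact hV.inter (relCore_isOpen isCompact_singleton hV)
    · rintro n ⟨hn1, hn2⟩
      change act p N m f n * (f n)⁻¹ = 1
      rw [hfV n hn1, inv_one, mul_one, act_apply]
      apply hfV
      rw [MulAut.conjNormal_inv_apply]
      simpa using hn2 m⁻¹ rfl
  obtain ⟨K4, hK4, h4⟩ := S.exists_far_act hN (F := Δ \ {1}) (hΔf.subset Set.sdiff_subset) hΔf
    (fun f hf => hΔc f hf.1) (fun f hf => hf.2)
  obtain ⟨K, hK, hle⟩ := S.hLE ((K1 : Set G) ∪ K2 ∪ (K3 ∪ K4))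
    ((hK1.2.union hK2.2).union (hK3.2.union hK4.2))
  have hle1 : K1 ≤ K := fun x hx => hle (Or.inl (Or.inl hx))
  have hle2 : K2 ≤ K := fun x hx => hle (Or.inl (Or.inr hx))
  have hle3 : K3 ≤ K := fun x hx => hle (Or.inr (Or.inl hx))
  have hle4 : K4 ≤ K := fun x hx => hle (Or.inr (Or.inr hx))
  refine ⟨K, hK, fun T hT hfar ψ hψ hprod => ?_⟩
  by_cases hex : ∃ g ∈ T, ψ g = 1
  · obtain ⟨g, hg, hg1⟩ := hex
    have hcard : (T.erase g).card ≤ t := by
      rw [Finset.card_erase_of_mem hg]; omega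
    have hprod' : ∏ x ∈ T.erase g, act p N x (ψ x) = 1 := by
      rw [← Finset.mul_prod_erase T _ hg, hg1, map_one, one_mul] at hprod
      exact hprod
    have := h1 (T.erase g) hcard (hfar.mono hle1 (Finset.erase_subset _ _)) ψ
      (fun x hx => hψ x (Finset.mem_of_mem_erase hx)) hprod'
    intro x hx
    by_cases hxg : x = g
    · rw [hxg]; exact hg1
    · exact this x (Finset.mem_erase.2 ⟨hxg, hx⟩)
  · push Not at hex
    have hψ1 : ∀ g ∈ T, ψ g ∈ F1 := fun g hg => ⟨hψ g hg, hex g hg⟩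
    have hFarK : ∀ g ∈ T, ∀ g' ∈ T, g ≠ g' → g⁻¹ * g' ∉ K := hfar
    obtain hT0 | hT1 | hT2 | hT3 : T.card = 0 ∨ T.card = 1 ∨ T.card = 2 ∨ 2 < T.card := by omega
    · rw [Finset.card_eq_zero] at hT0
      subst hT0
      intro g hg
      exact absurd hg (Finset.notMem_empty g)
    · exfalso
      obtain ⟨g, rfl⟩ := Finset.card_eq_one.1 hT1
      rw [Finset.prod_singleton] at hprod
      apply hex g (Finset.mem_singleton_self g)
      apply act_injective g
      rw [hprod, map_one]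
    · exfalso
      obtain ⟨a, b, hab, rfl⟩ := Finset.card_eq_two.1 hT2
      rw [Finset.prod_pair hab] at hprod
      have ha : a ∈ ({a, b} : Finset G) := by simp
      have hb : b ∈ ({a, b} : Finset G) := by simp
      apply hFarK b hb a ha (Ne.symm hab)
      apply hle2
      apply h2 _ _ (hψ1 a ha)
      refine ⟨ψ b, hψ b hb, ?_⟩
      change (ψ b)⁻¹ = _
      rw [act_mul, eq_inv_of_mul_eq_one_left hprod, map_inv, act_inv_act]
    · exfalso
      obtain ⟨g1, g2, g3, hg1, hg2, hg3, h12, h13, h23⟩ := Finset.two_lt_card_iff.1 hT3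
      obtain ⟨α, hα, hαψ⟩ := hmove _ (hψ1 g1 hg1)
      have hstab : ∀ a ∈ (⨅ f ∈ F, stab f : Subgroup G), ∀ g ∈ T, act p N a (ψ g) = ψ g := by
        intro a ha g hg
        simp only [Subgroup.mem_iInf] at ha
        exact ha _ (hψ g hg)
      -- general consequence of independence
      have key : ∀ x ∈ T, ∀ y ∈ T, x ≠ y → ∀ c ∈ M, ∃ n ∈ M,
          act p N n (act p N x (ψ x)) = act p N x (act p N c (ψ x)) ∧
          (act p N n (act p N x (ψ x)) * (act p N x (ψ x))⁻¹) *
          (act p N n (act p N y (ψ y)) * (act p N y (ψ y))⁻¹) = 1 := by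
        intro x hx y hy hxy c hc
        have hcard : (T.erase y).card ≤ t := by
          rw [Finset.card_erase_of_mem hy]; omega
        obtain ⟨n, hn, hn1, hn2⟩ := h3 (T.erase y) hcard
          (hfar.mono hle3 (Finset.erase_subset _ _)) x (Finset.mem_erase.2 ⟨hxy, hx⟩) c hc
        have e1 : act p N n (act p N x (ψ x)) = act p N x (act p N c (ψ x)) := by
          have h5 := hstab _ hn1 x hx
          have h6 : n * x = x * (c * (c⁻¹ * (x⁻¹ * n * x))) := by group
          rw [← act_mul, h6, act_mul, act_mul, h5]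
        have e2 : ∀ g ∈ T, g ≠ x ∧ g ≠ y →
            act p N n (act p N g (ψ g)) * (act p N g (ψ g))⁻¹ = 1 := by
          intro g hg hgxy
          have h5 := hstab _ (hn2 g (Finset.mem_erase.2 ⟨hgxy.2, hg⟩) hgxy.1) g hg
          have h6 : n * g = g * (g⁻¹ * n * g) := by group
          rw [← act_mul, h6, act_mul, h5, mul_inv_cancel]
        refine ⟨n, hn, e1, ?_⟩
        have h7 : ∏ g ∈ T, (act p N n (act p N g (ψ g)) * (act p N g (ψ g))⁻¹) = 1 := by
          rw [Finset.prod_mul_distrib, Finset.prod_inv_distrib, hprod, ← map_prod, hprod, map_one,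
            inv_one, one_mul]
        rw [← h7]
        symm
        exact Finset.prod_eq_mul x y hxy (fun g hg h => e2 g hg h) (fun h => absurd hx h)
          (fun h => absurd hy h)
      obtain ⟨n, hn, en1, en2⟩ := key g1 hg1 g3 hg3 h13 α hα
      have hγ : g3⁻¹ * n * g3 ∈ M := by
        have := hM.normal.conj_mem n hn g3⁻¹
        simpa using this
      obtain ⟨m, hm, em1, em2⟩ := key g3 hg3 g2 hg2 (Ne.symm h23) _ hγ
      have em3 : act p N m (act p N g3 (ψ g3)) = act p N n (act p N g3 (ψ g3)) := by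
        rw [em1, ← act_mul, ← act_mul]
        congr 2
        group
      rw [em3] at em2
      have hfin : act p N n (act p N g1 (ψ g1)) * (act p N g1 (ψ g1))⁻¹ =
          act p N m (act p N g2 (ψ g2)) * (act p N g2 (ψ g2))⁻¹ := by
        rw [eq_inv_of_mul_eq_one_left en2, eq_inv_of_mul_eq_one_right em2]
      rw [en1] at hfin
      have hμ : g2⁻¹ * m * g2 ∈ M := by
        have := hM.normal.conj_mem m hm g2⁻¹
        simpa using this
      apply hFarK g2 hg2 g1 hg1 (Ne.symm h12)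
      apply hle4
      apply h4 _ (act p N α (ψ g1) * (ψ g1)⁻¹)
      · refine ⟨?_, ?_⟩
        · simp only [Δ, Set.mem_iUnion]
          exact ⟨ψ g1, hψ g1 hg1, _, ⟨α, hα, rfl⟩, rfl⟩
        · intro h
          exact hαψ (mul_inv_eq_one.1 h)
      · simp only [Δ, Set.mem_iUnion]
        refine ⟨ψ g2, hψ g2 hg2, _, ⟨g2⁻¹ * m * g2, hμ, rfl⟩, ?_⟩
        change act p N (g2⁻¹ * m * g2) (ψ g2) * (ψ g2)⁻¹ = _
        have h8 : act p N (g2⁻¹ * g1) (act p N α (ψ g1) * (ψ g1)⁻¹) =
            act p N g2⁻¹ (act p N g1 (act p N α (ψ g1)) * (act p N g1 (ψ g1))⁻¹) := by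
          rw [act_mul, map_mul, map_inv]
        rw [h8, hfin, map_mul, map_inv, act_inv_act, ← act_mul, ← act_mul]

theorem Setup.rel (S : Setup G p) (t : ℕ) : ∀ N : Subgroup G, ∀ [N.Normal], Nice N →
    Rel p t N := by
  induction t with
  | zero =>
    intro N _ hN F _ _
    obtain ⟨K, hK, _⟩ := S.hLE ∅ isCompact_empty
    refine ⟨K, hK, fun T hT _ ψ _ _ g hg => ?_⟩
    rw [Finset.card_eq_zero.1 (Nat.le_zero.1 hT)] at hg
    exact absurd hg (Finset.notMem_empty g)
  | succ t ih => intro N _ hN; exact S.rel_step ih N hN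

theorem Setup.ind (S : Setup G p) (t : ℕ) {N : Subgroup G} (hN : Nice N) : Ind t N := by
  haveI := hN.normal
  exact S.ind_of_rel hN (S.rel t N hN)

end H16.LN
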