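import Pool.Agent.H16.LN.Basic

set_option autoImplicit false
set_option linter.unusedSectionVars false
set_option linter.style.haveILetI false

open Topology Pointwise Filter
open scoped commutatorElement

namespace H16.LN

variable {G : Type*} [Group G] [TopologicalSpace G] [IsTopologicalGroup G] [T2Space G] {p : ℕ}

theorem Setup.center_compact (S : Setup G p) : IsCompact (Subgroup.center G : Set G) := by
  apply S.hC
  · have : (Subgroup.center G : Set G) = ⋂ g : G, {z | g * z = z * g} := by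
      ext z
      simp [Subgroup.mem_center_iff]
    rw [this]
    exact isClosed_iInter fun g => isClosed_eq (by fun_prop) (by fun_prop)
  · intro h
    apply S.hna
    intro a b
    have ha : b ∈ Subgroup.center G := by rw [h]; trivial
    exact (Subgroup.mem_center_iff.1 ha a)

/-- The `p`-power map is not proper. -/
theorem Setup.exists_far (S : Setup G p) :
    ∃ Kb : Subgroup G, CO Kb ∧ ∀ K : Subgroup G, CO K → ∃ h, h ∉ K ∧ h ^ p ∈ Kb := by
  by_contra hcon
  push Not at hcon
  have hiter : ∀ j : ℕ, ∀ Kb : Subgroup G, CO Kb → ∃ K : Subgroup G, CO K ∧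
      ∀ h, h ^ (p ^ j) ∈ Kb → h ∈ K := by
    intro j
    induction j with
    | zero => intro Kb hKb; exact ⟨Kb, hKb, fun h hh => by simpa using hh⟩
    | succ j ih =>
      intro Kb hKb
      obtain ⟨K1, hK1, h1⟩ := hcon Kb hKb
      obtain ⟨K2, hK2, h2⟩ := ih K1 hK1
      refine ⟨K2, hK2, fun h hh => h2 h ?_⟩
      by_contra h3
      exact h1 _ h3 (by rwa [← pow_mul, ← pow_succ])
  obtain ⟨V, hV, hZV⟩ := S.hLE _ S.center_compact
  obtain ⟨K', hK', hKV⟩ := hcon V hV
  have hKV' : ∀ h, h ^ p ∈ V → h ∈ K' := fun h hh => by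
    by_contra h3; exact hKV _ h3 hh
  let T : ℕ → Set G := fun j => {y | (y ∈ K' ∧ y ∉ V) ∧ ∃ x, x ^ (p ^ j) = y}
  have hTne : ∀ j, (T j).Nonempty := by
    intro j
    obtain ⟨K2, hK2, h2⟩ := hiter j V hV
    obtain ⟨x, hx⟩ := S.exists_notMem hK2.2
    have hxj : x ^ (p ^ j) ∉ V := fun h => hx (h2 _ h)
    classical
    have hex := S.hP x V hV.1
    let k := Nat.find hex
    have hk : x ^ (p ^ k) ∈ V := Nat.find_spec hex
    have hjk : j < k := by
      by_contra hle
      push Not at hle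
      obtain ⟨d, hd⟩ := Nat.exists_eq_add_of_le hle
      apply hxj
      rw [hd, pow_add, pow_mul]
      exact V.pow_mem hk _
    obtain ⟨d, hd⟩ := Nat.exists_eq_add_of_lt hjk
    have hk1 : x ^ (p ^ (j + d)) ∉ V := Nat.find_min hex (by change j + d < k; omega)
    refine ⟨x ^ (p ^ (j + d)), ⟨hKV' _ ?_, hk1⟩, x ^ (p ^ d), ?_⟩
    · rw [← pow_mul, ← pow_succ, ← hd]; exact hk
    · rw [← pow_mul, ← pow_add, add_comm]
  have hTc : ∀ j, IsCompact (T j) := by
    intro j
    obtain ⟨K2, hK2, h2⟩ := hiter j K' hK'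
    have : T j = (fun x => x ^ (p ^ j)) '' ((K2 : Set G) ∩
        (fun x => x ^ (p ^ j)) ⁻¹' ((K' : Set G) ∩ (V : Set G)ᶜ)) := by
      ext y
      constructor
      · rintro ⟨⟨hy1, hy2⟩, x, hx⟩
        refine ⟨x, ⟨h2 x (by rwa [hx]), ?_⟩, hx⟩
        change x ^ (p ^ j) ∈ (K' : Set G) ∩ (V : Set G)ᶜ
        rw [hx]; exact ⟨hy1, hy2⟩
      · rintro ⟨x, ⟨_, hx1, hx2⟩, rfl⟩
        exact ⟨⟨hx1, hx2⟩, x, rfl⟩
    rw [this]
    apply IsCompact.image _ (continuous_pow _)
    apply hK2.2.inter_right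
    exact ((hK'.closed).inter hV.1.isClosed_compl).preimage (continuous_pow _)
  have hTd : ∀ j, T (j + 1) ⊆ T j := by
    rintro j y ⟨hy, x, hx⟩
    exact ⟨hy, x ^ p, by rw [← pow_mul, ← pow_succ']; exact hx⟩
  obtain ⟨y, hy⟩ := IsCompact.nonempty_iInter_of_sequence_nonempty_isCompact_isClosed T hTd hTne
    (hTc 0) (fun j => (hTc j).isClosed)
  rw [Set.mem_iInter] at hy
  have hyV : y ∉ V := (hy 0).1.2
  have hC : IsCompact (Subgroup.centralizer {y} : Set G) := by
    apply S.hC
    · have : (Subgroup.centralizer {y} : Set G) = {x | y * x = x * y} := by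
        ext z
        simp [Subgroup.mem_centralizer_iff]
      rw [this]
      exact isClosed_eq (by fun_prop) (by fun_prop)
    · intro h
      apply hyV
      apply hZV
      change y ∈ Subgroup.center G
      rw [Subgroup.mem_center_iff]
      intro g
      have : g ∈ Subgroup.centralizer {y} := by rw [h]; trivial
      exact ((Subgroup.mem_centralizer_iff.1 this) y rfl).symm
  obtain ⟨e, he⟩ := S.unif_exp hC hV.1
  obtain ⟨_, x, hx⟩ := hy e
  apply hyV
  rw [← hx]
  apply he
  change x ∈ Subgroup.centralizer {y}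
  rw [Subgroup.mem_centralizer_iff]
  rintro z rfl
  rw [← hx, ← pow_succ, ← pow_succ']

/-- The group is topologically perfect. -/
theorem Setup.perfect (S : Setup G p) : (commutator G).topologicalClosure = ⊤ := by
  by_contra hne
  have hcomp := S.hC _ (Subgroup.isClosed_topologicalClosure _) hne
  obtain ⟨Kb, hKb, hfar⟩ := S.exists_far
  obtain ⟨K, hK, hK1, hK2⟩ := S.exists_ge hcomp hKb.2
  have hcK : commutator G ≤ K := (Subgroup.le_topologicalClosure _).trans hK1
  have hnormal : ∀ H : Subgroup G, commutator G ≤ H → H.Normal := by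
    intro H hH
    constructor
    intro n hn g
    have : g * n * g⁻¹ = ⁅g, n⁆ * n := by rw [commutatorElement_def]; group
    rw [this]
    exact H.mul_mem (hH (Subgroup.commutator_mem_commutator (Subgroup.mem_top _)
      (Subgroup.mem_top _))) hn
  have hcomm : ∀ H : Subgroup G, commutator G ≤ H → ∀ [H.Normal], ∀ a b : G ⧸ H, a * b = b * a := by
    intro H hH _ a b
    obtain ⟨x, rfl⟩ := QuotientGroup.mk_surjective a
    obtain ⟨y, rfl⟩ := QuotientGroup.mk_surjective b
    rw [← QuotientGroup.mk_mul, ← QuotientGroup.mk_mul, QuotientGroup.eq]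
    have : (x * y)⁻¹ * (y * x) = ⁅y⁻¹, x⁻¹⁆ := by rw [commutatorElement_def]; group
    rw [this]
    exact hH (Subgroup.commutator_mem_commutator (Subgroup.mem_top _) (Subgroup.mem_top _))
  haveI := hnormal K hcK
  have hpow : ∀ x : G, x ^ p ∈ K := by
    let T : Subgroup G :=
      { carrier := {x | x ^ p ∈ K}
        mul_mem' := by
          intro a b ha hb
          change (a * b) ^ p ∈ K
          change a ^ p ∈ K at ha
          change b ^ p ∈ K at hb
          rw [← QuotientGroup.eq_one_iff, QuotientGroup.mk_pow, QuotientGroup.mk_mul,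
            (show Commute (a : G ⧸ K) (b : G ⧸ K) from hcomm K hcK _ _).mul_pow,
            ← QuotientGroup.mk_pow, ← QuotientGroup.mk_pow,
            (QuotientGroup.eq_one_iff _).2 ha, (QuotientGroup.eq_one_iff _).2 hb, one_mul]
        one_mem' := by change (1 : G) ^ p ∈ K; simp [K.one_mem]
        inv_mem' := by
          intro a ha
          change (a⁻¹) ^ p ∈ K
          rw [inv_pow]; exact K.inv_mem ha }
    have hT : T = ⊤ := by
      by_contra hT
      have hTc := S.hC T (hK.closed.preimage (continuous_pow p)) hT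
      obtain ⟨K2, hK2', h2⟩ := S.hLE _ hTc
      obtain ⟨h, hh1, hh2⟩ := hfar K2 hK2'
      exact hh1 (h2 (show h ∈ T from hK2 hh2))
    intro x
    have : x ∈ T := by rw [hT]; trivial
    exact this
  obtain ⟨x0, hx0⟩ := S.exists_notMem hK.2
  obtain ⟨H, hKH, hH⟩ := zorn_le_nonempty₀ {H : Subgroup G | K ≤ H ∧ x0 ∉ H} (by
    intro c hc hchain y hy
    refine ⟨sSup c, ⟨(hc hy).1.trans (le_sSup hy), ?_⟩, fun z hz => le_sSup hz⟩
    intro hx
    rw [Subgroup.mem_sSup_of_directedOn ⟨y, hy⟩ hchain.directedOn] at hx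
    obtain ⟨z, hz, hxz⟩ := hx
    exact (hc hz).2 hxz) K ⟨le_rfl, hx0⟩
  have hcH : commutator G ≤ H := hcK.trans hKH
  haveI := hnormal H hcH
  have hHopen : IsOpen (H : Set G) := Subgroup.isOpen_mono hKH hK.1
  have hHne : H ≠ ⊤ := fun h => hH.1.2 (by rw [h]; trivial)
  have hHc := S.hC H (H.isClosed_of_isOpen hHopen) hHne
  have hpH : ∀ y : G, (y : G ⧸ H) ^ p = 1 := by
    intro y
    rw [← QuotientGroup.mk_pow, QuotientGroup.eq_one_iff]
    exact hKH (hpow y)
  have key : ∀ y : G, ∃ a : ℕ, a < p ∧ (y : G ⧸ H) = (x0 : G ⧸ H) ^ a := by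
    intro y
    by_cases hy : y ∈ H
    · exact ⟨0, S.hp.pos, by rw [pow_zero, QuotientGroup.eq_one_iff]; exact hy⟩
    · have hx : x0 ∈ H ⊔ Subgroup.zpowers y := by
        by_contra hx
        have h1 := hH.2 (show H ⊔ Subgroup.zpowers y ∈ {H : Subgroup G | K ≤ H ∧ x0 ∉ H} from
          ⟨hKH.trans le_sup_left, hx⟩) le_sup_left
        exact hy (h1 ((le_sup_right : _ ≤ H ⊔ Subgroup.zpowers y) (Subgroup.mem_zpowers y)))
      obtain ⟨h, hh, z, hz, hhz⟩ := Subgroup.mem_sup_of_normal_left.1 hx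
      obtain ⟨i, rfl⟩ := Subgroup.mem_zpowers_iff.1 hz
      have h1 : (x0 : G ⧸ H) = (y : G ⧸ H) ^ i := by
        rw [← hhz, QuotientGroup.mk_mul, (QuotientGroup.eq_one_iff h).2 hh, one_mul,
          QuotientGroup.mk_zpow]
      have hcop : IsCoprime i (p : ℤ) := by
        rw [isCoprime_comm, (Nat.prime_iff_prime_int.1 S.hp).coprime_iff_not_dvd]
        rintro ⟨j, rfl⟩
        apply hH.1.2
        rw [← QuotientGroup.eq_one_iff, h1, zpow_mul, zpow_natCast, hpH, one_zpow]
      obtain ⟨a, b, hab⟩ := hcop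
      have h2 : (y : G ⧸ H) = (x0 : G ⧸ H) ^ a := by
        rw [h1, ← zpow_mul]
        have h3 : (y : G ⧸ H) = (y : G ⧸ H) ^ (a * i + b * (p : ℤ)) := by rw [hab, zpow_one]
        conv_lhs => rw [h3]
        rw [zpow_add, mul_comm b, zpow_mul _ (p : ℤ) b, zpow_natCast, hpH, one_zpow, mul_one,
          mul_comm a i]
      refine ⟨(a % (p : ℤ)).toNat, ?_, ?_⟩
      · have := Int.emod_lt_of_pos a (show (0 : ℤ) < p by exact_mod_cast S.hp.pos)
        have := Int.emod_nonneg a (show (p : ℤ) ≠ 0 by exact_mod_cast S.hp.ne_zero)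
        omega
      · rw [h2, ← zpow_natCast, Int.toNat_of_nonneg (Int.emod_nonneg a
          (show (p : ℤ) ≠ 0 by exact_mod_cast S.hp.ne_zero))]
        conv_lhs => rw [← Int.emod_add_mul_ediv a (p : ℤ)]
        rw [zpow_add, zpow_mul, zpow_natCast, hpH, one_zpow, mul_one]
  apply S.hnc
  refine ⟨?_⟩
  have hfin : IsCompact (⋃ a ∈ Finset.range p, (fun h => x0 ^ a * h) '' (H : Set G)) := by
    apply Finset.isCompact_biUnion
    intro a _
    exact hHc.image (by fun_prop)
  convert hfin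
  symm
  rw [Set.eq_univ_iff_forall]
  intro y
  obtain ⟨a, ha, hy⟩ := key y
  rw [← QuotientGroup.mk_pow, eq_comm, QuotientGroup.eq] at hy
  refine Set.mem_biUnion (x := a) (by simpa using ha) ⟨(x0 ^ a)⁻¹ * y, hy, ?_⟩
  group

end H16.LN
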