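import Mathlib
import Pool.Agent.H16.LN.Power
import Pool.Agent.H16.LN.Central
import Pool.Agent.H16.LN.Mixing2

set_option autoImplicit false
set_option linter.unusedSectionVars false
set_option linter.style.haveILetI false

open Topology Pointwise Filter

namespace H16.LN

section NoTop
variable {G : Type*} [Group G] {p : ℕ}

theorem mem_of_pow_mem (hp : p.Prime) {K : Subgroup G} {x : G} {j : ℤ}
    (hj : ¬ (p : ℤ) ∣ j) (hxp : x ^ p ∈ K) (hxj : x ^ j ∈ K) : x ∈ K := by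
  have hcop : IsCoprime (p : ℤ) j :=
    (Nat.prime_iff_prime_int.1 hp).irreducible.coprime_iff_not_dvd.2 hj
  obtain ⟨a, b, hab⟩ := hcop
  have h1 : x = (x ^ p) ^ a * (x ^ j) ^ b := by
    rw [← zpow_natCast x p, ← zpow_mul, ← zpow_mul, ← zpow_add, mul_comm (p : ℤ), mul_comm j,
      hab, zpow_one]
  rw [h1]
  exact K.mul_mem (K.zpow_mem hxp a) (K.zpow_mem hxj b)

theorem not_dvd_of_lt {i j : ℕ} (hi : i < p) (hj : j < p) (hij : i ≠ j) :
    ¬ (p : ℤ) ∣ (j : ℤ) - i := by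
  intro hd
  apply hij
  obtain ⟨c, hc⟩ := hd
  have h1 : (j : ℤ) - i < p := by omega
  have h2 : -(p : ℤ) < (j : ℤ) - i := by omega
  have hc1 : c < 1 := by
    by_contra h
    push Not at h
    nlinarith
  have hc2 : -1 < c := by
    by_contra h
    push Not at h
    nlinarith
  have : c = 0 := by omega
  subst this
  omega

theorem pow_sub_notMem (hp : p.Prime) {K : Subgroup G} {x : G} (hx : x ∉ K) (hxp : x ^ p ∈ K)
    {i j : ℕ} (hi : i < p) (hj : j < p) (hij : i ≠ j) : (x ^ i)⁻¹ * x ^ j ∉ K := by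
  intro hmem
  apply hx
  apply mem_of_pow_mem hp (not_dvd_of_lt hi hj hij) hxp
  have h1 : x ^ ((j : ℤ) - i) = (x ^ i)⁻¹ * x ^ j := by
    rw [← zpow_natCast x i, ← zpow_natCast x j, ← zpow_neg, ← zpow_add]
    congr 1
    ring
  rw [h1]
  exact hmem

theorem far_pow [DecidableEq G] (hp : p.Prime) {K : Subgroup G} {x : G} (hx : x ∉ K)
    (hxp : x ^ p ∈ K) : Far K ((Finset.range p).image (fun j => x ^ j)) := by
  intro g hg g' hg' hne
  rw [Finset.mem_image] at hg hg'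
  obtain ⟨i, hi, rfl⟩ := hg
  obtain ⟨j, hj, rfl⟩ := hg'
  rw [Finset.mem_range] at hi hj
  exact pow_sub_notMem hp hx hxp hi hj (fun h => hne (by rw [h]))

theorem pow_mul_formula {W : Subgroup G} {h n : G} (k : ℕ)
    (hk : ∀ j < k, (h ^ j)⁻¹ * n * h ^ j ∈ W) : (h ^ k)⁻¹ * (h * n) ^ k ∈ W := by
  induction k with
  | zero => simp [W.one_mem]
  | succ k ih =>
    have h1 := ih fun j hj => hk j (by omega)
    have h2 := W.mul_mem (hk k (by omega)) h1
    have h3 : (h ^ (k + 1))⁻¹ * (h * n) ^ (k + 1) =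
        (h ^ k)⁻¹ * n * h ^ k * ((h ^ k)⁻¹ * (h * n) ^ k) := by
      rw [pow_succ' h k, pow_succ' (h * n) k]
      have e : ∀ a y : G, (h * a)⁻¹ * (h * n * y) = a⁻¹ * n * a * (a⁻¹ * y) := by
        intro a y; group
      exact e (h ^ k) ((h * n) ^ k)
    rw [h3]; exact h2

/-- the intersection of the conjugates `x^j L x^{-j}` for `j < p`. -/
def dcore (L : Subgroup G) (x : G) (p : ℕ) : Subgroup G where
  carrier := {g | ∀ j < p, (x ^ j)⁻¹ * g * x ^ j ∈ L}
  mul_mem' := by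
    intro a b ha hb j hj
    have h1 := L.mul_mem (ha j hj) (hb j hj)
    have h2 : (x ^ j)⁻¹ * (a * b) * x ^ j = (x ^ j)⁻¹ * a * x ^ j * ((x ^ j)⁻¹ * b * x ^ j) := by
      group
    rw [h2]; exact h1
  one_mem' := by
    intro j _
    have : (x ^ j)⁻¹ * 1 * x ^ j = 1 := by group
    rw [this]; exact L.one_mem
  inv_mem' := by
    intro a ha j hj
    have h1 := L.inv_mem (ha j hj)
    have h2 : (x ^ j)⁻¹ * a⁻¹ * x ^ j = ((x ^ j)⁻¹ * a * x ^ j)⁻¹ := by group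
    rw [h2]; exact h1

theorem mem_dcore {L : Subgroup G} {x : G} {g : G} :
    g ∈ dcore L x p ↔ ∀ j < p, (x ^ j)⁻¹ * g * x ^ j ∈ L := Iff.rfl

theorem dcore_le {L : Subgroup G} {x : G} (hp : 0 < p) : dcore L x p ≤ L := by
  intro g hg
  simpa using hg 0 hp

theorem dcore_conj {L : Subgroup G} {x : G} (hx : x ^ p ∈ L) {g : G} (hg : g ∈ dcore L x p) :
    x * g * x⁻¹ ∈ dcore L x p := by
  intro j hj
  rcases j with _ | j
  · have hp1 : 1 ≤ p := hj
    have h1 := hg (p - 1) (by omega)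
    have h2 := L.mul_mem (L.mul_mem hx h1) (L.inv_mem hx)
    have h3 : (x ^ 0)⁻¹ * (x * g * x⁻¹) * x ^ 0 =
        x ^ p * ((x ^ (p - 1))⁻¹ * g * x ^ (p - 1)) * (x ^ p)⁻¹ := by
      obtain ⟨q, rfl⟩ : ∃ q, p = q + 1 := ⟨p - 1, by omega⟩
      rw [show q + 1 - 1 = q by omega, pow_succ' x q]
      group
    rw [h3]; exact h2
  · have h1 := hg j (by omega)
    have h3 : (x ^ (j + 1))⁻¹ * (x * g * x⁻¹) * x ^ (j + 1) = (x ^ j)⁻¹ * g * x ^ j := by
      rw [pow_succ' x j]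
      group
    rw [h3]; exact h1

theorem dcore_conj_inv {L : Subgroup G} {x : G} (hx : x ^ p ∈ L) {g : G}
    (hg : g ∈ dcore L x p) : x⁻¹ * g * x ∈ dcore L x p := by
  intro j hj
  by_cases hj1 : j + 1 < p
  · have h1 := hg (j + 1) hj1
    have h3 : (x ^ j)⁻¹ * (x⁻¹ * g * x) * x ^ j = (x ^ (j + 1))⁻¹ * g * x ^ (j + 1) := by
      rw [pow_succ' x j]
      group
    rw [h3]; exact h1
  · have hjp : j + 1 = p := by omega
    have h1 := dcore_le (by omega) hg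
    have h2 := L.mul_mem (L.mul_mem (L.inv_mem hx) h1) hx
    have h3 : (x ^ j)⁻¹ * (x⁻¹ * g * x) * x ^ j = (x ^ p)⁻¹ * g * x ^ p := by
      rw [← hjp, pow_succ' x j]
      group
    rw [h3]; exact h2

theorem pow_mem_dcore {L : Subgroup G} {x : G} (hx : x ^ p ∈ L) : x ^ p ∈ dcore L x p := by
  intro j _
  have : (x ^ j)⁻¹ * x ^ p * x ^ j = x ^ p := by
    rw [mul_assoc, ← pow_add, add_comm p j, pow_add]
    group
  rw [this]; exact hx

theorem mem_dcore_sup {L : Subgroup G} {x : G} (hp : 0 < p) (hx : x ^ p ∈ L) {g : G}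
    (hg : g ∈ dcore L x p ⊔ Subgroup.zpowers x) :
    ∃ d ∈ dcore L x p, ∃ j : ℕ, j < p ∧ g = d * x ^ j := by
  obtain ⟨l, hl, i, rfl⟩ := mem_sup_zpowers (fun l hl => dcore_conj hx hl)
    (fun l hl => dcore_conj_inv hx hl) hg
  have hp0 : (p : ℤ) ≠ 0 := by exact_mod_cast hp.ne'
  have h1 := Int.emod_nonneg i hp0
  have h2 := Int.emod_lt_of_pos i (show (0 : ℤ) < p by exact_mod_cast hp)
  refine ⟨l * (x ^ p) ^ (i / p), mul_mem hl (zpow_mem (pow_mem_dcore hx) _), (i % p).toNat,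
    by omega, ?_⟩
  have h3 : x ^ ((i % p).toNat) = x ^ (i % p) := by
    rw [← zpow_natCast, Int.toNat_of_nonneg h1]
  rw [h3, mul_assoc, ← zpow_natCast x p, ← zpow_mul, ← zpow_add, Int.mul_ediv_add_emod]

end NoTop

variable {G : Type*} [Group G] [TopologicalSpace G] [IsTopologicalGroup G] [T2Space G] {p : ℕ}

theorem dcore_isOpen {L : Subgroup G} (hL : IsOpen (L : Set G)) (x : G) :
    IsOpen (dcore L x p : Set G) := by
  have : (dcore L x p : Set G) = ⋂ j ∈ Finset.range p, (fun g => (x ^ j)⁻¹ * g * x ^ j) ⁻¹' (L : Set G) := by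
    ext g
    simp only [SetLike.mem_coe, mem_dcore, Set.mem_iInter, Set.mem_preimage, Finset.mem_range]
  rw [this]
  exact isOpen_biInter_finset fun j _ => hL.preimage (by fun_prop)

theorem dcore_sup_CO {L : Subgroup G} (hL : CO L) {x : G} (hp : 0 < p) (hx : x ^ p ∈ L) :
    CO (dcore L x p ⊔ Subgroup.zpowers x) := by
  have hopen : IsOpen (dcore L x p : Set G) := dcore_isOpen hL.1 x
  have hcomp : IsCompact (dcore L x p : Set G) :=
    hL.2.of_isClosed_subset ((dcore L x p).isClosed_of_isOpen hopen) (dcore_le hp)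
  have hopen2 := Subgroup.isOpen_mono (le_sup_left : dcore L x p ≤ dcore L x p ⊔ Subgroup.zpowers x) hopen
  refine ⟨hopen2, ?_⟩
  have hcomp2 : IsCompact (⋃ j ∈ Finset.range p, (fun d => d * x ^ j) '' (dcore L x p : Set G)) :=
    (Finset.range p).isCompact_biUnion fun j _ => hcomp.image (by fun_prop)
  apply hcomp2.of_isClosed_subset (Subgroup.isClosed_of_isOpen _ hopen2)
  intro g hg
  obtain ⟨d, hd, j, hj, rfl⟩ := mem_dcore_sup hp hx hg
  simp only [Set.mem_iUnion]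
  exact ⟨j, Finset.mem_range.2 hj, d, hd, rfl⟩

theorem Setup.step (S : Setup G p) {E V L W K : Subgroup G} (hE : CO E) (hL : CO L)
    (hLV : L ⊓ E ≤ V) (hW : IsOpen (W : Set G)) (hWL : W ≤ L) (hK : CO K) :
    ∃ L' : Subgroup G, CO L' ∧ L' ⊓ E ≤ V ∧ ¬ L' ≤ K ∧ ∀ a ∈ L, ∃ d ∈ L' ⊓ L, a⁻¹ * d ∈ W := by
  classical
  obtain ⟨Kb, hKb, hfar⟩ := S.exists_far
  obtain ⟨N, hN, hcov⟩ := S.exists_nice_cover (hL.2.union hKb.2) hW
  obtain ⟨K', hK', hind⟩ := S.ind p hN W hW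
  obtain ⟨K'', hK'', hQ⟩ := S.hLE ((K' : Set G) ∪ (Kb ∪ (L ∪ (E ∪ (K ∪ N)))))
    (hK'.2.union (hKb.2.union (hL.2.union (hE.2.union (hK.2.union hN.compact)))))
  have hK'le : K' ≤ K'' := fun x hx => hQ (Or.inl hx)
  have hKble : Kb ≤ K'' := fun x hx => hQ (Or.inr (Or.inl hx))
  have hLle : L ≤ K'' := fun x hx => hQ (Or.inr (Or.inr (Or.inl hx)))
  have hEle : E ≤ K'' := fun x hx => hQ (Or.inr (Or.inr (Or.inr (Or.inl hx))))
  have hKle : K ≤ K'' := fun x hx => hQ (Or.inr (Or.inr (Or.inr (Or.inr (Or.inl hx)))))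
  have hNle : N ≤ K'' := fun x hx => hQ (Or.inr (Or.inr (Or.inr (Or.inr (Or.inr hx)))))
  obtain ⟨h, hh, hhp⟩ := hfar K'' hK''
  have hp0 := S.hp.pos
  have hp1 := S.hp.one_lt
  obtain ⟨ν, hν, hνW⟩ := hcov (h ^ p)⁻¹ (Or.inr (Kb.inv_mem hhp))
  have hcard : ∀ x : G, ((Finset.range p).image (fun j => x ^ j)).card ≤ p := fun x =>
    Finset.card_image_le.trans (by rw [Finset.card_range])
  obtain ⟨n, hn, hn1, hn2⟩ := hind _ (hcard h)
    ((far_pow S.hp hh (hKble hhp)).mono hK'le le_rfl) (h ^ (p - 1))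
    (Finset.mem_image.2 ⟨p - 1, Finset.mem_range.2 (by omega), rfl⟩) ν hν
  have hx : (h * n) ^ p ∈ W := by
    have h1 : (h ^ (p - 1))⁻¹ * (h * n) ^ (p - 1) ∈ W := by
      apply pow_mul_formula
      intro j hj
      apply hn2
      · exact Finset.mem_image.2 ⟨j, Finset.mem_range.2 (by omega), rfl⟩
      · intro heq
        apply pow_sub_notMem S.hp hh (hKble hhp) (i := j) (j := p - 1) (by omega) (by omega)
          (by omega)
        rw [heq, inv_mul_cancel]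
        exact K''.one_mem
    have h2 := W.mul_mem (W.mul_mem (W.inv_mem hνW) hn1) h1
    have h3 : (h * n) ^ p = (ν⁻¹ * (h ^ p)⁻¹)⁻¹ * (ν⁻¹ * ((h ^ (p - 1))⁻¹ * n * h ^ (p - 1))) *
        ((h ^ (p - 1))⁻¹ * (h * n) ^ (p - 1)) := by
      obtain ⟨q, rfl⟩ : ∃ q, p = q + 1 := ⟨p - 1, by omega⟩
      rw [show q + 1 - 1 = q by omega, pow_succ' (h * n) q, pow_succ h q]
      have e2 : ∀ a y : G, a * h = h * a → h * n * y =
          (ν⁻¹ * (a * h)⁻¹)⁻¹ * (ν⁻¹ * (a⁻¹ * n * a)) * (a⁻¹ * y) := by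
        intro a y ha
        rw [ha]; group
      exact e2 _ _ ((pow_succ h q).symm.trans (pow_succ' h q))
    rw [h3]; exact h2
  have hh' : h * n ∉ K'' := by
    intro hmem
    apply hh
    have := K''.mul_mem hmem (K''.inv_mem (hNle hn))
    simpa using this
  have hxL : (h * n) ^ p ∈ L := hWL hx
  refine ⟨dcore L (h * n) p ⊔ Subgroup.zpowers (h * n), dcore_sup_CO hL hp0 hxL, ?_, ?_, ?_⟩
  · rintro g ⟨hg, hgE⟩
    obtain ⟨d, hd, j, hj, rfl⟩ := mem_dcore_sup hp0 hxL hg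
    by_cases hj0 : j = 0
    · subst hj0
      rw [pow_zero, mul_one] at hgE ⊢
      exact hLV ⟨dcore_le hp0 hd, hgE⟩
    · exfalso
      apply pow_sub_notMem S.hp hh' (hLle hxL) (i := 0) (j := j) hp0 hj (Ne.symm hj0)
      rw [pow_zero, inv_one, one_mul]
      have := K''.mul_mem (K''.inv_mem (hLle (dcore_le hp0 hd))) (hEle hgE)
      simpa using this
  · intro hle
    apply hh'
    apply hKle
    apply hle
    exact (le_sup_right : Subgroup.zpowers (h * n) ≤ _) (Subgroup.mem_zpowers _)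
  · intro a ha
    obtain ⟨na, hna, hnaW⟩ := hcov a (Or.inl ha)
    obtain ⟨m, hm, hm1, hm2⟩ := hind _ (hcard (h * n))
      ((far_pow S.hp hh' (hLle hxL)).mono hK'le le_rfl) 1
      (Finset.mem_image.2 ⟨0, Finset.mem_range.2 (by omega), pow_zero _⟩) na hna
    rw [inv_one, one_mul, mul_one] at hm1
    have ham : a⁻¹ * m ∈ W := by
      have := W.mul_mem (W.inv_mem hnaW) hm1
      have h3 : (na⁻¹ * a)⁻¹ * (na⁻¹ * m) = a⁻¹ * m := by group
      rw [h3] at this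
      exact this
    have hmL : m ∈ L := by
      have := L.mul_mem ha (hWL ham)
      simpa using this
    refine ⟨m, ⟨(le_sup_left : dcore L (h * n) p ≤ _) ?_, hmL⟩, ham⟩
    intro j hj
    by_cases hj0 : j = 0
    · subst hj0
      simpa using hmL
    · apply hWL
      apply hm2
      · exact Finset.mem_image.2 ⟨j, Finset.mem_range.2 (by omega), rfl⟩
      · intro heq
        apply pow_sub_notMem S.hp hh' (hLle hxL) (i := 0) (j := j) hp0 hj (Ne.symm hj0)
        rw [heq]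
        simp [K''.one_mem]

/-- there is a strictly increasing exhausting sequence of compact open subgroups -/
theorem Setup.exists_exhaust (S : Setup G p) (K0 : Subgroup G) (hK0 : CO K0) :
    ∃ K : ℕ → Subgroup G, K 0 = K0 ∧ (∀ n, CO (K n)) ∧ Monotone K ∧ ∀ g, ∃ n, g ∈ K n := by
  choose f hf1 hf2 using fun K : {K : Subgroup G // CO K} => S.exists_gt K.2
  let s : ℕ → {K : Subgroup G // CO K} := fun n => (fun K => ⟨f K, hf1 K⟩)^[n] ⟨K0, hK0⟩
  have hs : ∀ n, s n < s (n + 1) := by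
    intro n
    change (s n).1 < (s (n + 1)).1
    have : s (n + 1) = ⟨f (s n), hf1 (s n)⟩ := by
      simp only [s]
      rw [Function.iterate_succ_apply']
    rw [this]
    exact hf2 (s n)
  have hmono : StrictMono fun n => (s n).1 := strictMono_nat_of_lt_succ hs
  refine ⟨fun n => (s n).1, rfl, fun n => (s n).2, hmono.monotone, ?_⟩
  let Y : Subgroup G := ⨆ n, (s n).1
  have hdir : Directed (· ≤ ·) fun n => (s n).1 := hmono.monotone.directed_le
  have hopen : IsOpen (Y : Set G) := Subgroup.isOpen_mono (le_iSup (fun n => (s n).1) 0) (s 0).2.1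
  have htop : Y = ⊤ := by
    by_contra hne
    have hcomp := S.hC Y (Y.isClosed_of_isOpen hopen) hne
    obtain ⟨n, hn⟩ := hcomp.elim_directed_cover (fun n => ((s n).1 : Set G))
      (fun n => (s n).2.1)
      (by
        intro x hx
        obtain ⟨n, hn⟩ := (Subgroup.mem_iSup_of_directed hdir).1 hx
        exact Set.mem_iUnion.2 ⟨n, hn⟩)
      hdir
    have h1 : (s (n + 1)).1 ≤ (s n).1 := (le_iSup (fun n => (s n).1) (n + 1)).trans hn
    exact absurd (hs n) (not_lt_of_ge h1)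
  intro g
  have : g ∈ Y := by rw [htop]; trivial
  exact (Subgroup.mem_iSup_of_directed hdir).1 this

theorem Setup.false (S : Setup G p) : False := by
  obtain ⟨V, hV, -⟩ := S.hLE ∅ isCompact_empty
  obtain ⟨E, hE, hVE⟩ := S.exists_gt hV
  obtain ⟨K, hK0, hKCO, hKmono, hKex⟩ := S.exists_exhaust V hV
  -- states
  let St : Type _ := {q : Subgroup G × Subgroup G // CO q.1 ∧ IsOpen (q.2 : Set G) ∧ q.2 ≤ q.1 ∧
    q.1 ⊓ E ≤ V}
  have hstep : ∀ (n : ℕ) (q : St), ∃ q' : St, q'.1.2 = q.1.2 ⊓ q'.1.1 ∧ ¬ q'.1.1 ≤ K n ∧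
      ∀ a ∈ q.1.1, ∃ d ∈ q'.1.1 ⊓ q.1.1, a⁻¹ * d ∈ q.1.2 := by
    rintro n ⟨⟨L, W⟩, hL, hW, hWL, hLV⟩
    obtain ⟨L', hL', hL'V, hL'K, hap⟩ := S.step hE hL hLV hW hWL (hKCO n)
    refine ⟨⟨⟨L', W ⊓ L'⟩, hL', ?_, inf_le_right, hL'V⟩, rfl, hL'K, hap⟩
    change IsOpen ((W ⊓ L' : Subgroup G) : Set G)
    rw [Subgroup.coe_inf]
    exact hW.inter hL'.1
  choose f hf1 hf2 hf3 using hstep
  let q0 : St := ⟨⟨V, V⟩, hV, hV.1, le_rfl, inf_le_left⟩
  let s : ℕ → St := fun n => Nat.rec q0 (fun n q => f n q) n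
  have hs : ∀ n, s (n + 1) = f n (s n) := fun n => rfl
  let L : ℕ → Subgroup G := fun n => (s n).1.1
  let W : ℕ → Subgroup G := fun n => (s n).1.2
  have hLCO : ∀ n, CO (L n) := fun n => (s n).2.1
  have hWo : ∀ n, IsOpen (W n : Set G) := fun n => (s n).2.2.1
  have hWL : ∀ n, W n ≤ L n := fun n => (s n).2.2.2.1
  have hLV : ∀ n, L n ⊓ E ≤ V := fun n => (s n).2.2.2.2
  have hW1 : ∀ n, W (n + 1) = W n ⊓ L (n + 1) := by
    intro n
    simp only [W, L, hs]
    exact hf1 n (s n)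
  have hLK : ∀ n, ¬ L (n + 1) ≤ K n := by
    intro n
    simp only [L, hs]
    exact hf2 n (s n)
  have happ : ∀ n, ∀ a ∈ L n, ∃ d ∈ L (n + 1) ⊓ L n, a⁻¹ * d ∈ W n := by
    intro n
    simp only [L, W, hs]
    exact hf3 n (s n)
  have hWanti : Antitone W := antitone_nat_of_succ_le fun n => by rw [hW1]; exact inf_le_left
  have hW0 : W 0 = V := rfl
  let Ym : ℕ → Subgroup G := fun m => ⨅ n : {n : ℕ // m ≤ n}, L n.1
  have hYmono : Monotone Ym := by
    intro m m' hmm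
    apply le_iInf
    rintro ⟨n, hn⟩
    exact iInf_le (fun n : {n : ℕ // m ≤ n} => L n.1) ⟨n, hmm.trans hn⟩
  let Y : Subgroup G := ⨆ m, Ym m
  have hYle : ∀ m, Ym m ≤ Y := le_iSup Ym
  have hYE : Y ⊓ E ≤ V := by
    rintro y ⟨hy, hyE⟩
    obtain ⟨m, hm⟩ := (Subgroup.mem_iSup_of_directed hYmono.directed_le).1 hy
    exact hLV m ⟨(iInf_le (fun n : {n : ℕ // m ≤ n} => L n.1) ⟨m, le_rfl⟩) hm, hyE⟩
  have hcl : Y.topologicalClosure ⊓ E ≤ V := by
    rintro y ⟨hy, hyE⟩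
    have h1 : y ∈ closure ((Y : Set G) ∩ (E : Set G)) := by
      have h2 : (E : Set G) ∩ closure (Y : Set G) ⊆ closure ((E : Set G) ∩ (Y : Set G)) :=
        hE.1.inter_closure
      rw [Set.inter_comm]
      apply h2
      exact ⟨hyE, hy⟩
    have h2 : closure ((Y : Set G) ∩ (E : Set G)) ⊆ (V : Set G) := by
      apply closure_minimal _ hV.closed
      intro z hz
      exact hYE ⟨hz.1, hz.2⟩
    exact h2 h1
  have hne : Y.topologicalClosure ≠ ⊤ := by
    intro h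
    rw [h, top_inf_eq] at hcl
    exact absurd hVE (not_lt_of_ge hcl)
  have hcomp := S.hC _ (Subgroup.isClosed_topologicalClosure Y) hne
  obtain ⟨m, hm⟩ := hcomp.elim_directed_cover (fun n => (K n : Set G)) (fun n => (hKCO n).1)
    (by
      intro x _
      obtain ⟨n, hn⟩ := hKex x
      exact Set.mem_iUnion.2 ⟨n, hn⟩)
    hKmono.directed_le
  have hYK : Y ≤ K m := (Subgroup.le_topologicalClosure Y).trans hm
  -- choose a point
  obtain ⟨x, hxL, hxK⟩ := Set.not_subset.1 (hLK m)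
  choose g hg1 hg2 using happ
  let xs : (k : ℕ) → {y : G // y ∈ L (m + 1 + k)} := fun k =>
    Nat.rec ⟨x, hxL⟩ (fun k y => ⟨g (m + 1 + k) y.1 y.2, (hg1 (m + 1 + k) y.1 y.2).1⟩) k
  have hxs : ∀ k, ((xs k).1)⁻¹ * (xs (k + 1)).1 ∈ W (m + 1 + k) := fun k =>
    hg2 (m + 1 + k) (xs k).1 (xs k).2
  let C : ℕ → Set G := fun k => (fun w => (xs k).1 * w) '' (W (m + 1 + k) : Set G)
  have hWc : ∀ n, IsCompact (W n : Set G) := fun n =>
    (hLCO n).2.of_isClosed_subset ((W n).isClosed_of_isOpen (hWo n)) (hWL n)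
  have hCc : ∀ k, IsCompact (C k) := fun k => (hWc _).image (by fun_prop)
  have hCsub : ∀ k, C (k + 1) ⊆ C k := by
    rintro k _ ⟨w, hw, rfl⟩
    refine ⟨((xs k).1)⁻¹ * (xs (k + 1)).1 * w, ?_, ?_⟩
    · have hle : m + 1 + k ≤ m + 1 + (k + 1) := by omega
      exact (W (m + 1 + k)).mul_mem (hxs k) (hWanti hle hw)
    · change (xs k).1 * (((xs k).1)⁻¹ * (xs (k + 1)).1 * w) = (xs (k + 1)).1 * w
      group
  obtain ⟨y, hy⟩ := IsCompact.nonempty_iInter_of_sequence_nonempty_isCompact_isClosed C hCsub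
    (fun k => ⟨_, 1, (W _).one_mem, rfl⟩) (hCc 0) (fun k => (hCc k).isClosed)
  rw [Set.mem_iInter] at hy
  have hyL : y ∈ Ym (m + 1) := by
    simp only [Ym, Subgroup.mem_iInf]
    rintro ⟨n, hn⟩
    obtain ⟨k, rfl⟩ := Nat.exists_eq_add_of_le hn
    obtain ⟨w, hw, rfl⟩ := hy k
    exact (L (m + 1 + k)).mul_mem (xs k).2 (hWL _ hw)
  have hyK : y ∈ K m := hYK (hYle _ hyL)
  obtain ⟨w, hw, hwy⟩ := hy 0
  apply hxK
  have hwK : w ∈ K m := by
    apply hKmono (Nat.zero_le m)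
    rw [hK0, ← hW0]
    have hle : 0 ≤ m + 1 + 0 := Nat.zero_le _
    exact hWanti hle hw
  have : x = y * w⁻¹ := by
    rw [← hwy]
    change x = x * w * w⁻¹
    group
  rw [this]
  exact (K m).mul_mem hyK ((K m).inv_mem hwK)

end H16.LN
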