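import Pool.Agent.H16.LN.Central

set_option autoImplicit false
set_option linter.unusedSectionVars false
set_option linter.style.haveILetI false

open Topology Pointwise Filter
open scoped commutatorElement

namespace H16.LN

theorem exists_char {Q : Type*} [Group Q] [Finite Q] {p : ℕ} [Fact p.Prime] (hQ : IsPGroup p Q)
    {I : Subgroup Q} (hI : I ≠ ⊤) :
    ∃ χ : Q →* Multiplicative (ZMod p), χ ≠ 1 ∧ ∀ x ∈ I, χ x = 1 := by
  obtain h | ⟨M, hM, hIM⟩ := eq_top_or_exists_le_coatom I
  · exact absurd h hI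
  haveI : Group.IsNilpotent Q := hQ.isNilpotent
  haveI hMn : M.Normal := Subgroup.NormalizerCondition.normal_of_coatom M
    Group.normalizerCondition_of_isNilpotent hM
  have hPG : IsPGroup p (Q ⧸ M) := hQ.to_quotient M
  have hex : ∃ y : Q, y ∉ M := by
    by_contra h
    push Not at h
    exact hM.1 ((Subgroup.eq_top_iff' M).2 h)
  obtain ⟨y, hy⟩ := hex
  have hyne : (y : Q ⧸ M) ≠ 1 := fun h => hy ((QuotientGroup.eq_one_iff y).1 h)
  haveI : Nontrivial (Q ⧸ M) := ⟨⟨_, _, hyne⟩⟩
  obtain ⟨n, hn, hcard⟩ := hPG.nontrivial_iff_card.1 inferInstance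
  have hdvd : p ∣ Nat.card (Q ⧸ M) := by
    rw [hcard]; exact dvd_pow_self p (by omega)
  obtain ⟨x, hx⟩ := exists_prime_orderOf_dvd_card' p hdvd
  have htop : Subgroup.zpowers x = ⊤ := by
    have h1 : (Subgroup.zpowers x).comap (QuotientGroup.mk' M) = ⊤ := by
      apply hM.2
      refine lt_of_le_of_ne ?_ ?_
      · intro m hm
        rw [Subgroup.mem_comap]
        have : QuotientGroup.mk' M m = 1 := (QuotientGroup.eq_one_iff m).2 hm
        rw [this]; exact one_mem _
      · intro h
        obtain ⟨z, rfl⟩ := QuotientGroup.mk_surjective x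
        have h2 : z ∈ M := by
          rw [h, Subgroup.mem_comap]
          exact Subgroup.mem_zpowers _
        rw [(QuotientGroup.eq_one_iff z).2 h2, orderOf_one] at hx
        exact (Fact.out : p.Prime).ne_one hx.symm
    rw [Subgroup.eq_top_iff']
    intro z
    obtain ⟨w, rfl⟩ := QuotientGroup.mk_surjective z
    have : w ∈ (Subgroup.zpowers x).comap (QuotientGroup.mk' M) := by rw [h1]; trivial
    exact this
  have hcp : Nat.card (Q ⧸ M) = p := by
    rw [← Subgroup.card_top, ← htop, Nat.card_zpowers, hx]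
  have hcp' : Nat.card (Multiplicative (ZMod p)) = p := by
    rw [Nat.card_eq_fintype_card, Fintype.card_multiplicative, ZMod.card]
  let e := mulEquivOfPrimeCardEq (p := p) hcp hcp'
  refine ⟨e.toMonoidHom.comp (QuotientGroup.mk' M), ?_, ?_⟩
  · intro h
    have h1 := DFunLike.congr_fun h y
    rw [MonoidHom.comp_apply, MonoidHom.one_apply] at h1
    exact hyne (e.injective (by rw [map_one]; exact h1))
  · intro z hz
    rw [MonoidHom.comp_apply]
    have : QuotientGroup.mk' M z = 1 := (QuotientGroup.eq_one_iff z).2 (hIM hz)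
    rw [this, map_one]

section Act
variable {G : Type*} [Group G] (p : ℕ) (N : Subgroup G) [N.Normal]

/-- conjugation action on the characters of `N`. -/
def act (g : G) : (N →* Multiplicative (ZMod p)) →* (N →* Multiplicative (ZMod p)) where
  toFun f := f.comp (MulAut.conjNormal g)⁻¹.toMonoidHom
  map_one' := by ext; rfl
  map_mul' := by intro a b; ext; rfl

variable {p N}

theorem act_apply (g : G) (f : N →* Multiplicative (ZMod p)) (n : N) :
    act p N g f n = f ((MulAut.conjNormal g)⁻¹ n) := rfl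

theorem act_apply' (g : G) (f : N →* Multiplicative (ZMod p)) (n m : N)
    (h : (m : G) = g⁻¹ * n * g) : act p N g f n = f m := by
  rw [act_apply]
  congr 1
  apply Subtype.ext
  rw [MulAut.conjNormal_inv_apply, h]

theorem act_mul (g h : G) (f : N →* Multiplicative (ZMod p)) :
    act p N (g * h) f = act p N g (act p N h f) := by
  ext n
  rw [act_apply, act_apply, act_apply, map_mul, mul_inv_rev]
  rfl

theorem act_one (f : N →* Multiplicative (ZMod p)) : act p N (1 : G) f = f := by
  ext n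
  rw [act_apply, map_one, inv_one]
  rfl

theorem act_inv_act (g : G) (f : N →* Multiplicative (ZMod p)) :
    act p N g⁻¹ (act p N g f) = f := by
  rw [← act_mul, inv_mul_cancel, act_one]

theorem act_injective (g : G) : Function.Injective (act p N g) := by
  intro a b h
  rw [← act_inv_act g a, h, act_inv_act]

/-- stabiliser of a character -/
def stab (f : N →* Multiplicative (ZMod p)) : Subgroup G where
  carrier := {g | act p N g f = f}
  mul_mem' := by
    intro a b ha hb
    change act p N (a * b) f = f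
    rw [act_mul, show act p N b f = f from hb]; exact ha
  one_mem' := act_one f
  inv_mem' := by
    intro a ha
    change act p N a⁻¹ f = f
    conv_lhs => rw [← show act p N a f = f from ha]
    exact act_inv_act a f

theorem mem_stab {f : N →* Multiplicative (ZMod p)} {g : G} :
    g ∈ stab f ↔ act p N g f = f := Iff.rfl

end Act

/-- pairwise far apart modulo `K` -/
def Far {G : Type*} [Group G] (K : Subgroup G) (T : Finset G) : Prop :=
  ∀ g ∈ T, ∀ g' ∈ T, g ≠ g' → g⁻¹ * g' ∉ K

theorem Far.mono {G : Type*} [Group G] {K K' : Subgroup G} {T T' : Finset G} (h : Far K' T')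
    (hK : K ≤ K') (hT : T ⊆ T') : Far K T :=
  fun g hg g' hg' hne hmem => h g (hT hg) g' (hT hg') hne (hK hmem)

variable {G : Type*} [Group G] [TopologicalSpace G] [IsTopologicalGroup G] [T2Space G] {p : ℕ}

/-- continuity of characters -/
def Cts {N : Subgroup G} (f : N →* Multiplicative (ZMod p)) : Prop :=
  ∃ V : Subgroup G, IsOpen (V : Set G) ∧ ∀ n : N, (n : G) ∈ V → f n = 1

theorem Cts.stab_isOpen {N : Subgroup G} [N.Normal] (hN : IsCompact (N : Set G))
    {f : N →* Multiplicative (ZMod p)} (hf : Cts f) : IsOpen (stab f : Set G) := by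
  obtain ⟨V, hV, hfV⟩ := hf
  have hle : relCore (N : Set G) V ≤ stab f := by
    intro g hg
    rw [mem_stab]
    ext n
    congr 1
    have hconj : (g⁻¹ * n * g : G) ∈ N := by
      have := ‹N.Normal›.conj_mem n n.2 g⁻¹
      simpa using this
    rw [act_apply' g f n ⟨g⁻¹ * n * g, hconj⟩ rfl]
    have h1 : (⟨g⁻¹ * n * g, hconj⟩ : N) = n * (n⁻¹ * ⟨g⁻¹ * n * g, hconj⟩) := by group
    rw [h1, map_mul, hfV (n⁻¹ * ⟨g⁻¹ * n * g, hconj⟩), mul_one]
    have h2 : ((n⁻¹ * ⟨g⁻¹ * n * g, hconj⟩ : N) : G) =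
        ((n : G)⁻¹ * g * ((n : G)⁻¹)⁻¹)⁻¹ * g := by
      push_cast
      group
    rw [h2]
    exact V.mul_mem (V.inv_mem (hg _ (N.inv_mem n.2))) (relCore_le N.one_mem hg)
  exact Subgroup.isOpen_mono hle (relCore_isOpen hN hV)

theorem Setup.stab_compact (S : Setup G p) {N : Subgroup G} [N.Normal] (hN : Nice N)
    {f : N →* Multiplicative (ZMod p)} (hf : Cts f) (hf1 : f ≠ 1) :
    IsCompact (stab f : Set G) := by
  have hopen := hf.stab_isOpen hN.compact
  apply S.hC _ ((stab f).isClosed_of_isOpen hopen)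
  intro htop
  apply hf1
  have hker : IsCompact ((f.ker.map N.subtype : Subgroup G) : Set G) := by
    haveI : CompactSpace N := isCompact_iff_compactSpace.1 hN.compact
    rw [Subgroup.coe_map]
    apply IsCompact.image _ continuous_subtype_val
    apply IsClosed.isCompact
    apply Subgroup.isClosed_of_isOpen
    obtain ⟨V, hV, hfV⟩ := hf
    refine Subgroup.isOpen_mono (H₁ := V.subgroupOf N) ?_ (subgroupOf_isOpen N hV)
    intro n hn
    exact hfV n hn
  have hle := hN.perf _ hker.isClosed (by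
    intro n hn g
    have hmem : n * g * n⁻¹ * g⁻¹ ∈ N := by
      have h1 := hN.normal.conj_mem _ (N.inv_mem hn) g
      have h2 : n * g * n⁻¹ * g⁻¹ = n * (g * n⁻¹ * g⁻¹) := by group
      rw [h2]; exact N.mul_mem hn h1
    refine ⟨⟨_, hmem⟩, ?_, rfl⟩
    rw [SetLike.mem_coe, MonoidHom.mem_ker]
    have hg : act p N g⁻¹ f = f := by
      have : g⁻¹ ∈ stab f := by rw [htop]; trivial
      exact this
    have h3 : (⟨n * g * n⁻¹ * g⁻¹, hmem⟩ : N) =
        ⟨n, hn⟩ * ⟨g * n⁻¹ * g⁻¹, hN.normal.conj_mem _ (N.inv_mem hn) g⟩ := by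
      apply Subtype.ext
      push_cast
      group
    rw [h3, map_mul]
    have h4 : f ⟨g * n⁻¹ * g⁻¹, hN.normal.conj_mem _ (N.inv_mem hn) g⟩ = f ⟨n⁻¹, N.inv_mem hn⟩ := by
      conv_rhs => rw [← hg]
      rw [act_apply' g⁻¹ f ⟨n⁻¹, N.inv_mem hn⟩ ⟨g * n⁻¹ * g⁻¹,
        hN.normal.conj_mem _ (N.inv_mem hn) g⟩ (by simp)]
    rw [h4, ← map_mul]
    have h5 : (⟨n, hn⟩ * ⟨n⁻¹, N.inv_mem hn⟩ : N) = 1 := by
      apply Subtype.ext
      simp
    rw [h5, map_one])
  ext n
  obtain ⟨m, hm, hmn⟩ := hle n.2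
  have : m = n := Subtype.ext hmn
  rw [← this]
  rw [SetLike.mem_coe, MonoidHom.mem_ker] at hm
  rw [hm]; rfl

/-- far elements do not move characters from a finite set into a finite set. -/
theorem Setup.exists_far_act (S : Setup G p) {N : Subgroup G} [N.Normal] (hN : Nice N)
    {F F' : Set (N →* Multiplicative (ZMod p))} (hF : F.Finite) (hF' : F'.Finite)
    (hc : ∀ f ∈ F, Cts f) (h1 : ∀ f ∈ F, f ≠ 1) :
    ∃ K : Subgroup G, CO K ∧ ∀ g, ∀ f ∈ F, act p N g f ∈ F' → g ∈ K := by
  have key : ∀ f ∈ F, ∀ f' : N →* Multiplicative (ZMod p),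
      IsCompact {g | act p N g f = f'} := by
    intro f hf f'
    by_cases hex : ∃ g0, act p N g0 f = f'
    · obtain ⟨g0, hg0⟩ := hex
      have : {g | act p N g f = f'} = (fun h => g0 * h) '' (stab f : Set G) := by
        ext g
        constructor
        · intro hg
          refine ⟨g0⁻¹ * g, ?_, by group⟩
          rw [SetLike.mem_coe, mem_stab, act_mul, show act p N g f = f' from hg, ← hg0,
            act_inv_act]
        · rintro ⟨h, hh, rfl⟩
          change act p N (g0 * h) f = f'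
          rw [act_mul, mem_stab.1 hh, hg0]
      rw [this]
      exact (S.stab_compact hN (hc f hf) (h1 f hf)).image (by fun_prop)
    · have : {g | act p N g f = f'} = ∅ := by
        ext g
        simp only [Set.mem_ofPred_eq, Set.mem_empty_iff_false, iff_false]
        exact fun h => hex ⟨g, h⟩
      rw [this]; exact isCompact_empty
  have hcomp : IsCompact (⋃ f ∈ F, ⋃ f' ∈ F', {g | act p N g f = f'}) :=
    hF.isCompact_biUnion fun f hf => hF'.isCompact_biUnion fun f' _ => key f hf f'
  obtain ⟨K, hK, hsub⟩ := S.hLE _ hcomp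
  refine ⟨K, hK, fun g f hf hg => hsub ?_⟩
  simp only [Set.mem_iUnion]
  exact ⟨f, hf, _, hg, rfl⟩

/-- no far relations of length at most `t` -/
def Rel (p : ℕ) (t : ℕ) (N : Subgroup G) [N.Normal] : Prop :=
  ∀ F : Set (N →* Multiplicative (ZMod p)), F.Finite → (∀ f ∈ F, Cts f) →
    ∃ K : Subgroup G, CO K ∧ ∀ T : Finset G, T.card ≤ t → Far K T →
      ∀ ψ : G → (N →* Multiplicative (ZMod p)), (∀ g ∈ T, ψ g ∈ F) →
        ∏ g ∈ T, act p N g (ψ g) = 1 → ∀ g ∈ T, ψ g = 1

/-- independence of at most `t` far conjugates -/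
def Ind (t : ℕ) (N : Subgroup G) : Prop :=
  ∀ A : Subgroup G, IsOpen (A : Set G) → ∃ K : Subgroup G, CO K ∧
    ∀ T : Finset G, T.card ≤ t → Far K T → ∀ g0 ∈ T, ∀ c ∈ N, ∃ n ∈ N,
      c⁻¹ * (g0⁻¹ * n * g0) ∈ A ∧ ∀ g ∈ T, g ≠ g0 → g⁻¹ * n * g ∈ A

end H16.LN
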