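import Mathlib
import Pool.Agent.H16.LN.Basic

set_option autoImplicit false
set_option linter.unusedSectionVars false
set_option linter.style.haveILetI false

open Topology Pointwise Filter

namespace H16.LN

/-- the hypotheses of the question, with `G` nonabelian -/
structure Hyp (G : Type*) [Group G] [TopologicalSpace G] : Prop where
  hnil : ∀ s : Finset G, Group.IsNilpotent (Subgroup.closure (s : Set G))
  hC : ∀ H : Subgroup G, IsClosed (H : Set G) → H ≠ ⊤ → IsCompact (H : Set G)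
  hnc : ¬ CompactSpace G
  hna : ¬ ∀ a b : G, a * b = b * a

/-- numbers all of whose prime divisors satisfy `π` -/
def PiNum (π : ℕ → Prop) (m : ℕ) : Prop := m ≠ 0 ∧ ∀ q, q.Prime → q ∣ m → π q

theorem PiNum.one (π : ℕ → Prop) : PiNum π 1 :=
  ⟨one_ne_zero, fun _ hq h => absurd (Nat.dvd_one.1 h) hq.one_lt.ne'⟩

theorem pi_mul {Q : Type*} [Group Q] [Finite Q] [Group.IsNilpotent Q] {π : ℕ → Prop} {x y : Q}
    {m n : ℕ} (hm : PiNum π m) (hn : PiNum π n) (hx : x ^ m = 1) (hy : y ^ n = 1) :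
    ∃ k, PiNum π k ∧ (x * y) ^ k = 1 := by
  classical
  obtain ⟨e⟩ := ((Group.isNilpotent_of_finite_tfae (G := Q)).out 0 4 rfl rfl).1 ‹_›
  obtain ⟨f, rfl⟩ := e.surjective x
  obtain ⟨g, rfl⟩ := e.surjective y
  refine ⟨∏ q ∈ (Nat.card Q).primeFactors.filter π, q ^ (Nat.card Q).factorization q,
    ⟨?_, ?_⟩, ?_⟩
  · rw [Finset.prod_ne_zero_iff]
    intro q hq
    exact pow_ne_zero _ (Nat.prime_of_mem_primeFactors (Finset.mem_filter.1 hq).1).ne_zero
  · intro q hq hqk
    obtain ⟨r, hr, hqr⟩ := (hq.prime.dvd_finsetProd_iff _).1 hqk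
    have h1 := hq.dvd_of_dvd_pow hqr
    have h2 := (Nat.prime_dvd_prime_iff_eq hq
      (Nat.prime_of_mem_primeFactors (Finset.mem_filter.1 hr).1)).1 h1
    rw [h2]
    exact (Finset.mem_filter.1 hr).2
  · rw [← map_mul, ← map_pow]
    have hone : ∀ (a : ∀ p : (Nat.card Q).primeFactors, ∀ P : Sylow p Q, (P : Subgroup Q)) (l : ℕ),
        PiNum π l → e a ^ l = 1 → ∀ (p : (Nat.card Q).primeFactors), ¬ π p →
        ∀ P : Sylow p Q, a p P = 1 := by
      intro a l hl hal p hp P
      have h1 : a ^ l = 1 := by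
        apply e.injective
        rw [map_pow, hal, map_one]
      have h2 : (a p P) ^ l = 1 := congrFun (congrFun h1 p) P
      haveI : Fact (p : ℕ).Prime := ⟨Nat.prime_of_mem_primeFactors p.2⟩
      have h3 : (a p P) ^ (Nat.card (P : Subgroup Q)) = 1 := pow_card_eq_one'
      rw [P.card_eq_multiplicity] at h3
      have hcop : Nat.Coprime l ((p : ℕ) ^ (Nat.card Q).factorization p) := by
        apply Nat.Coprime.pow_right
        rw [Nat.coprime_comm, Nat.Prime.coprime_iff_not_dvd this.out]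
        intro hd
        exact hp (hl.2 p this.out hd)
      have h4 := orderOf_dvd_of_pow_eq_one h2
      have h5 := orderOf_dvd_of_pow_eq_one h3
      exact orderOf_eq_one_iff.1 (Nat.eq_one_of_dvd_coprimes hcop h4 h5)
    have h1 : (f * g) ^ (∏ q ∈ (Nat.card Q).primeFactors.filter π,
        q ^ (Nat.card Q).factorization q) = 1 := by
      funext p
      funext P
      change (f p P * g p P) ^ (∏ q ∈ (Nat.card Q).primeFactors.filter π,
        q ^ (Nat.card Q).factorization q) = 1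
      by_cases hp : π p
      · haveI : Fact (p : ℕ).Prime := ⟨Nat.prime_of_mem_primeFactors p.2⟩
        have h3 : (f p P * g p P) ^ (Nat.card (P : Subgroup Q)) = 1 := pow_card_eq_one'
        rw [P.card_eq_multiplicity] at h3
        have h4 : (p : ℕ) ^ (Nat.card Q).factorization p ∣
            ∏ q ∈ (Nat.card Q).primeFactors.filter π, q ^ (Nat.card Q).factorization q :=
          Finset.dvd_prod_of_mem (fun q => q ^ (Nat.card Q).factorization q)
            (Finset.mem_filter.2 ⟨p.2, hp⟩)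
        obtain ⟨c, hc⟩ := h4
        rw [hc, pow_mul, h3, one_pow]
      · rw [hone f m hm hx p hp P, hone g n hn hy p hp P, mul_one, one_pow]
    rw [h1, map_one]

variable {G : Type*} [Group G] [TopologicalSpace G] [IsTopologicalGroup G] [T2Space G]

theorem closure_comm (x : G) : ∀ a ∈ (Subgroup.zpowers x).topologicalClosure,
    ∀ b ∈ (Subgroup.zpowers x).topologicalClosure, a * b = b * a := by
  intro a ha b hb
  letI := Subgroup.commGroupTopologicalClosure (Subgroup.zpowers x) (fun a b => by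
    obtain ⟨i, hi⟩ := Subgroup.mem_zpowers_iff.1 a.2
    obtain ⟨j, hj⟩ := Subgroup.mem_zpowers_iff.1 b.2
    apply Subtype.ext
    change (a : G) * b = b * a
    rw [← hi, ← hj, ← zpow_add, ← zpow_add, add_comm])
  have := mul_comm (⟨a, ha⟩ : (Subgroup.zpowers x).topologicalClosure) ⟨b, hb⟩
  exact congrArg Subtype.val this

theorem Hyp.cyc (H : Hyp G) (x : G) :
    IsCompact ((Subgroup.zpowers x).topologicalClosure : Set G) := by
  apply H.hC _ (Subgroup.isClosed_topologicalClosure _)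
  intro htop
  apply H.hna
  intro a b
  exact closure_comm x a (by rw [htop]; trivial) b (by rw [htop]; trivial)

theorem ucs_closed (n : ℕ) : IsClosed (Subgroup.upperCentralSeries G n : Set G) := by
  induction n with
  | zero =>
    rw [Subgroup.upperCentralSeries_zero]; simp
  | succ n ih =>
    have : (Subgroup.upperCentralSeries G (n + 1) : Set G) =
        ⋂ y : G, (fun x => x * y * x⁻¹ * y⁻¹) ⁻¹' (Subgroup.upperCentralSeries G n : Set G) := by
      ext x
      simp only [SetLike.mem_coe, Subgroup.mem_upperCentralSeries_succ_iff, Set.mem_iInter,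
        Set.mem_preimage, commutatorElement_def]
    rw [this]
    exact isClosed_iInter fun y => ih.preimage (by fun_prop)

theorem ucs_dense {Γ : Subgroup G} (hΓ : Γ.topologicalClosure = ⊤) (n : ℕ) :
    ∀ x : Γ, x ∈ Subgroup.upperCentralSeries Γ n → (x : G) ∈ Subgroup.upperCentralSeries G n := by
  induction n with
  | zero =>
    intro x hx
    rw [Subgroup.upperCentralSeries_zero, Subgroup.mem_bot] at hx ⊢
    rw [hx]; rfl
  | succ n ih =>
    intro x hx
    rw [Subgroup.mem_upperCentralSeries_succ_iff] at hx ⊢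
    have hcl : IsClosed {y : G | (x : G) * y * (x : G)⁻¹ * y⁻¹ ∈ Subgroup.upperCentralSeries G n} :=
      (ucs_closed n).preimage (f := fun y : G => (x : G) * y * (x : G)⁻¹ * y⁻¹) (by fun_prop)
    have hsub : (Γ : Set G) ⊆
        {y : G | (x : G) * y * (x : G)⁻¹ * y⁻¹ ∈ Subgroup.upperCentralSeries G n} := by
      intro y hy
      have h1 := ih (x * (⟨y, hy⟩ : Γ) * x⁻¹ * (⟨y, hy⟩ : Γ)⁻¹) (hx ⟨y, hy⟩)
      exact h1
    intro y
    have : y ∈ closure (Γ : Set G) := by
      rw [← Subgroup.topologicalClosure_coe, hΓ]; trivial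
    exact closure_minimal hsub hcl this

theorem Hyp.fg (H : Hyp G) (F : Finset G) :
    IsCompact ((Subgroup.closure (F : Set G)).topologicalClosure : Set G) := by
  by_contra hne
  have htop : (Subgroup.closure (F : Set G)).topologicalClosure = ⊤ := by
    by_contra h
    exact hne (H.hC _ (Subgroup.isClosed_topologicalClosure _) h)
  obtain ⟨n, hn⟩ := (H.hnil F).nilpotent'
  have hGn : Subgroup.upperCentralSeries G n = ⊤ := by
    rw [eq_top_iff, ← htop]
    apply Subgroup.topologicalClosure_minimal _ _ (ucs_closed n)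
    intro x hx
    exact ucs_dense htop n ⟨x, hx⟩ (by rw [hn]; trivial)
  classical
  have hex : ∃ n, Subgroup.upperCentralSeries G n = ⊤ := ⟨n, hGn⟩
  have hm := Nat.find_spec hex
  have hmin := fun k => Nat.find_min hex (m := k)
  rcases hmm : Nat.find hex with _ | m
  · rw [hmm, Subgroup.upperCentralSeries_zero] at hm
    apply H.hna
    intro a b
    have ha : a ∈ (⊥ : Subgroup G) := by rw [hm]; trivial
    have hb : b ∈ (⊥ : Subgroup G) := by rw [hm]; trivial
    rw [Subgroup.mem_bot] at ha hb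
    rw [ha, hb]
  · have hZne : Subgroup.upperCentralSeries G m ≠ ⊤ := hmin m (by omega)
    have hZ := H.hC _ (ucs_closed m) hZne
    rw [hmm] at hm
    have hcomm : ∀ x y : G, x * y * x⁻¹ * y⁻¹ ∈ Subgroup.upperCentralSeries G m := by
      intro x y
      have hx : x ∈ Subgroup.upperCentralSeries G (m + 1) := by rw [hm]; trivial
      exact Subgroup.mem_upperCentralSeries_succ_iff.1 hx y
    have key : ∀ F : Finset G, ∃ K : Subgroup G, IsCompact (K : Set G) ∧
        Subgroup.upperCentralSeries G m ≤ K ∧ (F : Set G) ⊆ K := by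
      intro F
      induction F using Finset.induction_on with
      | empty => exact ⟨_, hZ, le_rfl, by simp⟩
      | insert x F hx ih =>
        obtain ⟨K, hK, hZK, hFK⟩ := ih
        haveI : K.Normal := ⟨fun k hk g => by
          have := K.mul_mem (hZK (hcomm g k)) hk
          simpa using this⟩
        refine ⟨K ⊔ (Subgroup.zpowers x).topologicalClosure, ?_, hZK.trans le_sup_left, ?_⟩
        · rw [Subgroup.normal_mul]; exact hK.mul (H.cyc x)
        · intro y hy
          rw [Finset.coe_insert] at hy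
          rcases hy with rfl | hy
          · exact (le_sup_right : _ ≤ K ⊔ (Subgroup.zpowers y).topologicalClosure)
              (Subgroup.le_topologicalClosure _ (Subgroup.mem_zpowers y))
          · exact (le_sup_left : K ≤ _) (hFK hy)
    obtain ⟨K, hK, _, hFK⟩ := key F
    have hK2 : (⊤ : Subgroup G) ≤ K := by
      rw [← htop]
      exact Subgroup.topologicalClosure_minimal _ ((Subgroup.closure_le _).2 hFK) hK.isClosed
    apply H.hnc
    constructor
    rw [top_le_iff] at hK2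
    rw [hK2] at hK
    simpa using hK

theorem Hyp.hLE (H : Hyp G) [LocallyCompactSpace G] (Q : Set G) (hQ : IsCompact Q) :
    ∃ K : Subgroup G, CO K ∧ Q ⊆ K := by
  obtain ⟨U0, hU0c, hU0⟩ := exists_compact_mem_nhds (1 : G)
  set U : Set G := (U0 ∪ Q) ∪ (U0 ∪ Q)⁻¹ with hU
  have hUc : IsCompact U := (hU0c.union hQ).union (hU0c.union hQ).inv
  have hUi : ∀ u ∈ U, u⁻¹ ∈ U := by
    rintro u (hu | hu)
    · exact Or.inr (by simpa using hu)
    · exact Or.inl hu
  have hUn : U ∈ 𝓝 (1 : G) :=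
    mem_of_superset hU0 (Set.subset_union_left.trans Set.subset_union_left)
  have h1U : (1 : G) ∈ U := mem_of_mem_nhds hUn
  obtain ⟨F, -, hF⟩ := (hUc.mul hUc).elim_nhds_subcover (fun x => (fun u => x⁻¹ * u) ⁻¹' U)
    (fun x _ => by
      have hc : ContinuousAt (fun u : G => x⁻¹ * u) x := by fun_prop
      apply hc.preimage_mem_nhds
      simpa using hUn)
  have hmem : ∀ x ∈ Subgroup.closure U,
      x ∈ ((Subgroup.closure (F : Set G)).topologicalClosure : Set G) * U := by
    have hstep : ∀ x ∈ ((Subgroup.closure (F : Set G)).topologicalClosure : Set G) * U,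
        ∀ y ∈ U, x * y ∈ ((Subgroup.closure (F : Set G)).topologicalClosure : Set G) * U := by
      rintro _ ⟨c, hc, u, hu, rfl⟩ y hy
      have h2 := hF (Set.mul_mem_mul hu hy)
      simp only [Set.mem_iUnion] at h2
      obtain ⟨z, hz, hzU⟩ := h2
      refine ⟨c * z, ?_, z⁻¹ * (u * y), hzU, ?_⟩
      · exact Subgroup.mul_mem _ hc
          (Subgroup.le_topologicalClosure _ (Subgroup.subset_closure hz))
      · change c * z * (z⁻¹ * (u * y)) = c * u * y
        group
    intro x hx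
    induction hx using Subgroup.closure_induction_right with
    | one => exact ⟨1, Subgroup.one_mem _, 1, h1U, mul_one 1⟩
    | mul_right x hx y hy ih => exact hstep x ih y hy
    | mul_inv_cancel x hx y hy ih => exact hstep x ih _ (hUi y hy)
  have hopen : IsOpen ((Subgroup.closure U : Subgroup G) : Set G) :=
    isOpen_of_nhds (mem_of_superset hUn Subgroup.subset_closure)
  refine ⟨Subgroup.closure U, ⟨hopen, ?_⟩, ?_⟩
  · exact ((H.fg F).mul hUc).of_isClosed_subset (Subgroup.isClosed_of_isOpen _ hopen) hmem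
  · exact (Set.subset_union_right.trans Set.subset_union_left).trans Subgroup.subset_closure

theorem Hyp.quot_nilpotent (H : Hyp G) {K V : Subgroup G} (hK : CO K)
    (hV : IsOpen (V : Set G)) :
    Group.IsNilpotent (K ⧸ ((relCore (K : Set G) V).subgroupOf K)) := by
  classical
  haveI : Finite (K ⧸ ((relCore (K : Set G) V).subgroupOf K)) :=
    finite_quot hK.2 (relCore_isOpen hK.2 hV)
  haveI := Fintype.ofFinite (K ⧸ ((relCore (K : Set G) V).subgroupOf K))
  let F : Finset G := Finset.univ.image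
    (fun q : K ⧸ ((relCore (K : Set G) V).subgroupOf K) => ((Quotient.out q : K) : G))
  have hFK : Subgroup.closure (F : Set G) ≤ K := by
    rw [Subgroup.closure_le]
    intro x hx
    simp only [F, Finset.coe_image, Finset.coe_univ, Set.image_univ, Set.mem_range] at hx
    obtain ⟨q, rfl⟩ := hx
    exact (Quotient.out q).2
  let φ : Subgroup.closure (F : Set G) →* K ⧸ ((relCore (K : Set G) V).subgroupOf K) :=
    (QuotientGroup.mk' _).comp (Subgroup.inclusion hFK)
  have hφ : Function.Surjective φ := by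
    intro q
    refine ⟨⟨(Quotient.out q : K), Subgroup.subset_closure ?_⟩, ?_⟩
    · simp only [F, Finset.coe_image, Finset.coe_univ, Set.image_univ, Set.mem_range]
      exact ⟨q, rfl⟩
    · exact QuotientGroup.out_eq' q
  haveI := H.hnil F
  exact Group.nilpotent_of_surjective φ hφ

theorem Hyp.exists_CO2 (H : Hyp G) [LocallyCompactSpace G] (x y : G) :
    ∃ K : Subgroup G, CO K ∧ x ∈ K ∧ y ∈ K := by
  obtain ⟨K, hK, hQ⟩ := H.hLE {x, y} (Set.toFinite _).isCompact
  exact ⟨K, hK, hQ (by simp), hQ (by simp)⟩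

/-- `x` is a `π`-element -/
def piEl (G : Type*) [Group G] [TopologicalSpace G] (π : ℕ → Prop) : Set G :=
  {x | ∀ V : Subgroup G, IsOpen (V : Set G) → ∃ m, PiNum π m ∧ x ^ m ∈ V}

theorem quot_pow_eq_one {K V : Subgroup G} {x : G} (hx : x ∈ K) {m : ℕ}
    (hm : x ^ m ∈ relCore (K : Set G) V) :
    (QuotientGroup.mk (⟨x, hx⟩ : K) : K ⧸ ((relCore (K : Set G) V).subgroupOf K)) ^ m = 1 := by
  rw [← QuotientGroup.mk_pow, QuotientGroup.eq_one_iff, Subgroup.mem_subgroupOf]
  exact hm

theorem pow_mem_of_quot {K V : Subgroup G} {x : G} (hx : x ∈ K) {m : ℕ}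
    (hm : (QuotientGroup.mk (⟨x, hx⟩ : K) : K ⧸ ((relCore (K : Set G) V).subgroupOf K)) ^ m = 1) :
    x ^ m ∈ relCore (K : Set G) V := by
  rw [← QuotientGroup.mk_pow, QuotientGroup.eq_one_iff, Subgroup.mem_subgroupOf] at hm
  exact hm

/-- the subgroup of `π`-elements -/
def Hyp.S [LocallyCompactSpace G] (H : Hyp G) (π : ℕ → Prop) : Subgroup G where
  carrier := piEl G π
  mul_mem' := by
    intro x y hx hy V hV
    obtain ⟨K, hK, hxK, hyK⟩ := H.exists_CO2 x y
    have hA := relCore_isOpen hK.2 hV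
    obtain ⟨m, hm, hxm⟩ := hx _ hA
    obtain ⟨n, hn, hyn⟩ := hy _ hA
    haveI : Finite (K ⧸ ((relCore (K : Set G) V).subgroupOf K)) := finite_quot hK.2 hA
    haveI := H.quot_nilpotent hK hV
    obtain ⟨k, hk, hxy⟩ := pi_mul hm hn (quot_pow_eq_one hxK hxm) (quot_pow_eq_one hyK hyn)
    exact ⟨k, hk, relCore_le K.one_mem (pow_mem_of_quot (K.mul_mem hxK hyK) hxy)⟩
  one_mem' := by
    intro V _
    exact ⟨1, PiNum.one π, by simp [V.one_mem]⟩
  inv_mem' := by
    intro x hx V hV
    obtain ⟨m, hm, hxm⟩ := hx V hV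
    exact ⟨m, hm, by rw [inv_pow]; exact V.inv_mem hxm⟩

theorem Hyp.mem_S [LocallyCompactSpace G] (H : Hyp G) {π : ℕ → Prop} {x : G} :
    x ∈ H.S π ↔ ∀ V : Subgroup G, IsOpen (V : Set G) → ∃ m, PiNum π m ∧ x ^ m ∈ V := Iff.rfl

theorem Hyp.S_normal [LocallyCompactSpace G] (H : Hyp G) (π : ℕ → Prop) : (H.S π).Normal := by
  constructor
  intro x hx g V hV
  have hV' : IsOpen ((V.comap (MulAut.conj g).toMonoidHom : Subgroup G) : Set G) := by
    rw [Subgroup.coe_comap]
    apply hV.preimage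
    change Continuous fun x : G => g * x * g⁻¹
    fun_prop
  obtain ⟨m, hm, hxm⟩ := hx _ hV'
  refine ⟨m, hm, ?_⟩
  rw [conj_pow]
  exact hxm

theorem Hyp.S_closed [LocallyCompactSpace G] (H : Hyp G) (π : ℕ → Prop) :
    IsClosed (H.S π : Set G) := by
  rw [← closure_subset_iff_isClosed]
  intro x hx V hV
  obtain ⟨K, hK, hxK, -⟩ := H.exists_CO2 x x
  have hA := relCore_isOpen hK.2 hV
  have hKA : IsOpen ((K ⊓ relCore (K : Set G) V : Subgroup G) : Set G) := by
    rw [Subgroup.coe_inf]; exact hK.1.inter hA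
  rw [mem_closure_iff] at hx
  obtain ⟨s, hs1, hs2⟩ := hx ((fun y => x⁻¹ * y) ⁻¹' ((K ⊓ relCore (K : Set G) V : Subgroup G) : Set G))
    (hKA.preimage (by fun_prop)) (by
      change x⁻¹ * x ∈ K ⊓ relCore (K : Set G) V
      rw [inv_mul_cancel]; exact Subgroup.one_mem _)
  have hs3 : x⁻¹ * s ∈ K := hs1.1
  have hs4 : x⁻¹ * s ∈ relCore (K : Set G) V := hs1.2
  have hsK : s ∈ K := by
    have := K.mul_mem hxK hs3
    simpa using this
  obtain ⟨m, hm, hsm⟩ := hs2 _ hA
  refine ⟨m, hm, relCore_le K.one_mem (pow_mem_of_quot hxK ?_)⟩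
  have heq : (QuotientGroup.mk (⟨x, hxK⟩ : K) : K ⧸ ((relCore (K : Set G) V).subgroupOf K)) =
      QuotientGroup.mk (⟨s, hsK⟩ : K) := by
    rw [QuotientGroup.eq, Subgroup.mem_subgroupOf]
    exact hs4
  rw [heq]
  exact quot_pow_eq_one hsK hsm

theorem Hyp.exists_pow [LocallyCompactSpace G] (H : Hyp G) (x : G) {V : Subgroup G}
    (hV : IsOpen (V : Set G)) : ∃ n, n ≠ 0 ∧ x ^ n ∈ V := by
  obtain ⟨K, hK, hxK, -⟩ := H.exists_CO2 x x
  have hA := relCore_isOpen hK.2 hV
  haveI : Finite (K ⧸ ((relCore (K : Set G) V).subgroupOf K)) := finite_quot hK.2 hA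
  exact ⟨Nat.card (K ⧸ ((relCore (K : Set G) V).subgroupOf K)), Nat.card_pos.ne',
    relCore_le K.one_mem (pow_mem_of_quot hxK pow_card_eq_one')⟩

theorem Hyp.factor [LocallyCompactSpace G] (H : Hyp G) {p : ℕ} (hp : p.Prime) (x : G) :
    ∃ b ∈ H.S (fun q => q ≠ p), x * b⁻¹ ∈ H.S (fun q => q = p) := by
  set C := (Subgroup.zpowers x).topologicalClosure with hCdef
  have hxC : x ∈ C := Subgroup.le_topologicalClosure _ (Subgroup.mem_zpowers x)
  obtain ⟨b, hbC, hb⟩ := (H.cyc x).exists_mapClusterPt (f := atTop)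
    (u := fun k : ℕ => x ^ (p ^ (k.factorial))) (by
      rw [le_principal_iff, mem_map]
      exact Eventually.of_forall fun k => C.pow_mem hxC _)
  have key : ∀ V : Subgroup G, IsOpen (V : Set G) → ∀ N : ℕ, ∃ k, N ≤ k ∧
      (x ^ (p ^ (k.factorial)))⁻¹ * b ∈ V := by
    intro V hV N
    have hnb : {y : G | y⁻¹ * b ∈ V} ∈ 𝓝 b := by
      have hc : ContinuousAt (fun y : G => y⁻¹ * b) b := by fun_prop
      apply hc.preimage_mem_nhds
      apply hV.mem_nhds
      rw [inv_mul_cancel]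
      exact V.one_mem
    have hfr := (mapClusterPt_iff_frequently.1 hb) _ hnb
    obtain ⟨k, hk, hkV⟩ := (frequently_atTop.1 hfr) N
    exact ⟨k, hk, hkV⟩
  have main : ∀ V : Subgroup G, IsOpen (V : Set G) → ∃ s n' : ℕ, PiNum (fun q => q ≠ p) n' ∧
      b ^ n' ∈ V ∧ (x * b⁻¹) ^ (p ^ s) ∈ V := by
    intro V hV
    obtain ⟨n, hn0, hn⟩ := H.exists_pow x hV
    obtain ⟨s, n', hn', hnn⟩ := Nat.exists_eq_pow_mul_and_not_dvd hn0 p hp.one_lt.ne'
    have hn'0 : n' ≠ 0 := by rintro rfl; exact hn' (dvd_zero p)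
    obtain ⟨k, hk, hkV⟩ := key V hV (max (s + 1) n'.totient)
    have hks : s ≤ k.factorial := by
      have := Nat.self_le_factorial k
      have := le_max_left (s + 1) n'.totient
      omega
    have hkt : n'.totient ∣ k.factorial :=
      Nat.dvd_factorial (Nat.totient_pos.2 (Nat.pos_of_ne_zero hn'0)) ((le_max_right _ _).trans hk)
    set e := p ^ k.factorial with he
    have hcop : Nat.Coprime p n' := (Nat.Prime.coprime_iff_not_dvd hp).2 hn'
    have hmod : e ≡ 1 [MOD n'] := by
      obtain ⟨c, hc⟩ := hkt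
      rw [he, hc, pow_mul]
      simpa using (Nat.ModEq.pow_totient hcop).pow c
    have hcv : ∀ v ∈ C, ∀ w ∈ C, Commute v w := fun v hv w hw => closure_comm x v hv w hw
    have hvC : (x ^ e)⁻¹ * b ∈ C := C.mul_mem (C.inv_mem (C.pow_mem hxC _)) hbC
    have hbe : b = x ^ e * ((x ^ e)⁻¹ * b) := by group
    refine ⟨s, n', ⟨hn'0, ?_⟩, ?_, ?_⟩
    · rintro q hq hqn rfl
      exact hn' hqn
    · rw [hbe, (hcv _ (C.pow_mem hxC e) _ hvC).mul_pow]
      refine V.mul_mem ?_ (V.pow_mem hkV _)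
      have hd : n ∣ e * n' := by
        rw [hnn]
        exact Nat.mul_dvd_mul (pow_dvd_pow p hks) dvd_rfl
      obtain ⟨c, hc⟩ := hd
      rw [← pow_mul, hc, pow_mul]
      exact V.pow_mem hn _
    · have h1 : x * b⁻¹ = x * (x ^ e)⁻¹ * ((x ^ e)⁻¹ * b)⁻¹ := by
        have h2 : b * x ^ e = x ^ e * b := (hcv b hbC (x ^ e) (C.pow_mem hxC e)).eq
        rw [mul_inv_rev, inv_inv, mul_assoc x, ← mul_assoc (x ^ e)⁻¹, ← mul_inv_rev, h2,
          mul_inv_rev]
        group
      have h3 : x * (x ^ e)⁻¹ ∈ C := C.mul_mem hxC (C.inv_mem (C.pow_mem hxC e))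
      rw [h1, (hcv _ h3 _ (C.inv_mem hvC)).mul_pow]
      refine V.mul_mem ?_ (V.pow_mem (V.inv_mem hkV) _)
      have h4 : (x * (x ^ e)⁻¹) ^ p ^ s = x ^ ((1 - (e : ℤ)) * (p ^ s : ℕ)) := by
        have : x * (x ^ e)⁻¹ = x ^ (1 - (e : ℤ)) := by
          rw [zpow_sub, zpow_one, zpow_natCast]
        rw [this, zpow_mul, zpow_natCast]
      have h5 : (n : ℤ) ∣ (1 - (e : ℤ)) * (p ^ s : ℕ) := by
        rw [hnn, Nat.cast_mul, mul_comm]
        apply mul_dvd_mul _ dvd_rfl
        exact (Nat.modEq_iff_dvd.1 hmod)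
      obtain ⟨c, hc⟩ := h5
      rw [h4, hc, zpow_mul, zpow_natCast]
      exact V.zpow_mem hn _
  refine ⟨b, ?_, ?_⟩
  · intro V hV
    obtain ⟨s, n', h1, h2, -⟩ := main V hV
    exact ⟨n', h1, h2⟩
  · intro V hV
    obtain ⟨s, n', -, -, h2⟩ := main V hV
    refine ⟨p ^ s, ⟨pow_ne_zero _ hp.ne_zero, ?_⟩, h2⟩
    intro q hq hqs
    exact (Nat.prime_dvd_prime_iff_eq hq hp).1 (hq.dvd_of_dvd_pow hqs)

theorem Hyp.setup [LocallyCompactSpace G] (H : Hyp G) : ∃ p, Setup G p := by
  obtain ⟨V, hV, -⟩ := H.hLE ∅ isCompact_empty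
  obtain ⟨x, hx⟩ : ∃ x, x ∉ V := by
    by_contra h
    push Not at h
    apply H.hnc
    constructor
    have : (V : Set G) = Set.univ := Set.eq_univ_of_forall h
    rw [← this]; exact hV.2
  classical
  have hex := H.exists_pow x hV.1
  have hn := Nat.find_spec hex
  have hmin := fun k => Nat.find_min hex (m := k)
  set n := Nat.find hex with hndef
  have hn1 : n ≠ 1 := by
    intro h
    rw [h, pow_one] at hn
    exact hx hn.2
  obtain ⟨p, hp, hpn⟩ := Nat.exists_prime_and_dvd hn1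
  obtain ⟨c, hc⟩ := hpn
  have hc0 : c ≠ 0 := by rintro rfl; rw [mul_zero] at hc; exact hn.1 hc
  have hcn : c < n := by
    rw [hc]
    have := hp.one_lt
    nlinarith [Nat.pos_of_ne_zero hc0]
  have hyV : x ^ c ∉ V := fun h => hmin c hcn ⟨hc0, h⟩
  have hypV : (x ^ c) ^ p ∈ V := by
    rw [← pow_mul, mul_comm, ← hc]; exact hn.2
  refine ⟨p, ⟨H.hC, H.hnc, H.hLE, hp, ?_, H.hna⟩⟩
  -- S_{p'} is proper
  have hprop : H.S (fun q => q ≠ p) ≠ ⊤ := by
    intro htop
    have hy : x ^ c ∈ H.S (fun q => q ≠ p) := by rw [htop]; trivial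
    obtain ⟨m, hm, hmV⟩ := hy V hV.1
    have hcop : Nat.Coprime p m := by
      rw [Nat.Prime.coprime_iff_not_dvd hp]
      intro hd
      exact hm.2 p hp hd rfl
    apply hyV
    have hcop' : IsCoprime (p : ℤ) (m : ℤ) := Nat.isCoprime_iff_coprime.2 hcop
    obtain ⟨a, b, hab⟩ := hcop'
    have h1 : x ^ c = ((x ^ c) ^ p) ^ a * ((x ^ c) ^ m) ^ b := by
      rw [← zpow_natCast (x ^ c) p, ← zpow_natCast (x ^ c) m, ← zpow_mul, ← zpow_mul, ← zpow_add,
        mul_comm (p : ℤ), mul_comm (m : ℤ), hab, zpow_one]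
    rw [h1]
    exact V.mul_mem (V.zpow_mem hypV a) (V.zpow_mem hmV b)
  have hcomp1 := H.hC _ (H.S_closed _) hprop
  have hStop : H.S (fun q => q = p) = ⊤ := by
    by_contra hne
    have hcomp2 := H.hC _ (H.S_closed _) hne
    apply H.hnc
    constructor
    have : (Set.univ : Set G) = (H.S (fun q => q = p) : Set G) * (H.S (fun q => q ≠ p) : Set G) := by
      symm
      apply Set.eq_univ_of_forall
      intro y
      obtain ⟨b, hb, hyb⟩ := H.factor hp y
      exact ⟨y * b⁻¹, hyb, b, hb, by group⟩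
    rw [this]
    exact hcomp2.mul hcomp1
  intro y W hW
  have hy : y ∈ H.S (fun q => q = p) := by rw [hStop]; trivial
  obtain ⟨m, hm, hmW⟩ := hy W hW
  have := Nat.eq_prime_pow_of_unique_prime_dvd hm.1 (fun {d} hd hdm => hm.2 d hd hdm)
  refine ⟨m.primeFactorsList.length, ?_⟩
  rw [← this]; exact hmW

end H16.LN
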